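import Pool.Agent.Lib_helper81.FD.Rec

set_option autoImplicit false

namespace Pool.Agent.Lib_helper81.FD

open Finset

variable {V : Type*} [Fintype V] [DecidableEq V]

/-- Standing hypotheses on the weights. -/
structure Hyp (w : Finset V → ℝ) (z : ℝ) (M : ℕ) (τ : ℝ) : Prop where
  w0 : ∀ T, 0 ≤ w T
  w1 : ∀ T, w T ≤ 1
  z0 : 0 ≤ z
  zn : z * Fintype.card V ≤ 1 / 2
  tau : (1 + 4 * M * z) * Real.exp τ ≤ 4 / 3
  kap : 4 * M * z ≤ 1
  tau1 : τ ≤ 1 / 8
  sum : ∀ (Γ : Finset V) (v : V), v ∈ Γ → Γ.card ≤ M →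
    ∑ T ∈ (Finset.univ : Finset (Finset V)).filter (fun T => v ∈ T ∧ ¬ T ⊆ Γ),
      (1 - w T) * (4 * M * z) ^ (T \ Γ).card ≤ τ

/-- upper ratio bound at level `N` -/
def Upp (w : Finset V → ℝ) (z : ℝ) (M N : ℕ) : Prop :=
  ∀ (U : Finset (Finset V)) (Γ : Finset V) (v : V), v ∉ Γ → Γ.card + 1 + N ≤ M →
    Q w z N U (Γ ∪ {v}) ≤ 4 / 3 * Q w z N U Γ

/-- positivity at level `N` -/
def Posi (w : Finset V → ℝ) (z : ℝ) (M N : ℕ) : Prop :=
  ∀ (U : Finset (Finset V)) (Γ : Finset V), Γ.card + N ≤ M → 0 < Q w z N U Γ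

theorem step_B {w : Finset V → ℝ} {z : ℝ} {M : ℕ} {τ : ℝ} (H : Hyp w z M τ) {N : ℕ}
    (hA : Posi w z M N) (hC : Upp w z M N) (U : Finset (Finset V)) (Γ : Finset V)
    (hΓ : Γ.card + (N + 1) ≤ M) : Q w z N U Γ ≤ 3 * Q w z (N + 1) U Γ := by
  have hpos := hA U Γ (by omega)
  rw [Q_succ]
  have h1 : ∑ v ∈ Finset.univ \ Γ, phi w U Γ {v} * Q w z N U (Γ ∪ {v})
      ≤ (Fintype.card V : ℝ) * (4 / 3 * Q w z N U Γ) := by
    calc ∑ v ∈ Finset.univ \ Γ, phi w U Γ {v} * Q w z N U (Γ ∪ {v})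
        ≤ ∑ v ∈ Finset.univ \ Γ, (4 / 3 * Q w z N U Γ) := by
          refine Finset.sum_le_sum fun v hv => ?_
          have hv' : v ∉ Γ := by simpa using hv
          have h2 := hC U Γ v hv' (by omega)
          have h3 : 0 < Q w z N U (Γ ∪ {v}) := hA U _ (by
            have := Finset.card_union_le Γ {v}
            simp only [card_singleton] at this
            omega)
          calc phi w U Γ {v} * Q w z N U (Γ ∪ {v}) ≤ 1 * Q w z N U (Γ ∪ {v}) :=
                mul_le_mul_of_nonneg_right (phi_le_one H.w0 H.w1 _ _ _) h3.le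
            _ ≤ _ := by rw [one_mul]; exact h2
      _ = ((Finset.univ \ Γ).card : ℝ) * (4 / 3 * Q w z N U Γ) := by
          rw [Finset.sum_const, nsmul_eq_mul]
      _ ≤ (Fintype.card V : ℝ) * (4 / 3 * Q w z N U Γ) := by
          refine mul_le_mul_of_nonneg_right ?_ (by positivity)
          exact_mod_cast (Finset.card_le_univ _)
  have h2 : z * ∑ v ∈ Finset.univ \ Γ, phi w U Γ {v} * Q w z N U (Γ ∪ {v})
      ≤ 2 / 3 * Q w z N U Γ := by
    calc z * ∑ v ∈ Finset.univ \ Γ, phi w U Γ {v} * Q w z N U (Γ ∪ {v})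
        ≤ z * ((Fintype.card V : ℝ) * (4 / 3 * Q w z N U Γ)) :=
          mul_le_mul_of_nonneg_left h1 H.z0
      _ = (z * Fintype.card V) * (4 / 3 * Q w z N U Γ) := by ring
      _ ≤ 1 / 2 * (4 / 3 * Q w z N U Γ) :=
          mul_le_mul_of_nonneg_right H.zn (by positivity)
      _ = 2 / 3 * Q w z N U Γ := by ring
  linarith

theorem iter_ghost {w : Finset V → ℝ} {z : ℝ} {M : ℕ} {N : ℕ}
    (hC : Upp w z M N) (U : Finset (Finset V)) (A : Finset V) :
    ∀ (Γ : Finset V), Disjoint A Γ → Γ.card + A.card + N ≤ M →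
    Q w z N U (Γ ∪ A) ≤ (4 / 3) ^ A.card * Q w z N U Γ := by
  induction A using Finset.induction_on with
  | empty => intro Γ _ _; simp
  | insert a A ha ih =>
    intro Γ hd hc
    rw [Finset.card_insert_of_notMem ha] at hc ⊢
    rw [Finset.disjoint_insert_left] at hd
    have h1 := ih Γ hd.2 (by omega)
    have h2 : Γ ∪ insert a A = (Γ ∪ A) ∪ {a} := by
      ext x; simp only [mem_union, mem_insert, mem_singleton]; tauto
    have h3 := hC U (Γ ∪ A) a (by simp [ha, hd.1]) (by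
      have := Finset.card_union_le Γ A
      omega)
    rw [h2]
    calc Q w z N U (Γ ∪ A ∪ {a}) ≤ 4 / 3 * Q w z N U (Γ ∪ A) := h3
      _ ≤ 4 / 3 * ((4 / 3) ^ A.card * Q w z N U Γ) := by linarith
      _ = _ := by ring

theorem iter_down {w : Finset V → ℝ} {z : ℝ} {M : ℕ} {τ : ℝ} (H : Hyp w z M τ) {N : ℕ}
    (hA : ∀ k < N, Posi w z M k) (hC : ∀ k < N, Upp w z M k) (U : Finset (Finset V))
    (Γ : Finset V) (hΓ : Γ.card + N ≤ M) (m : ℕ) (hm : m ≤ N) :
    Q w z (N - m) U Γ ≤ 3 ^ m * Q w z N U Γ := by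
  induction m with
  | zero => simp
  | succ m ih =>
    have h1 := ih (by omega)
    have h2 := step_B H (hA (N - (m + 1)) (by omega)) (hC (N - (m + 1)) (by omega)) U Γ (by omega)
    have h3 : N - (m + 1) + 1 = N - m := by omega
    rw [h3] at h2
    calc Q w z (N - (m + 1)) U Γ ≤ 3 * Q w z (N - m) U Γ := h2
      _ ≤ 3 * (3 ^ m * Q w z N U Γ) := by linarith
      _ = _ := by ring

/-- the term removed/added when one set is inserted -/
theorem term_bound {w : Finset V → ℝ} {z : ℝ} {M : ℕ} {τ : ℝ} (H : Hyp w z M τ) {N : ℕ}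
    (hA : ∀ k ≤ N, Posi w z M k) (hC : ∀ k < N, Upp w z M k) (U : Finset (Finset V))
    (Γ A : Finset V) (hd : Disjoint A Γ) (hA1 : 1 ≤ A.card) (hΓ : Γ.card + N ≤ M) :
    |(N.descFactorial A.card : ℝ) * (-z) ^ A.card * phi w U Γ A *
        Q w z (N - A.card) U (Γ ∪ A)| ≤ (4 * M * z) ^ A.card * Q w z N U Γ := by
  have hQ : 0 < Q w z N U Γ := hA N le_rfl U Γ hΓ
  have hz := H.z0
  by_cases hm : A.card ≤ N
  · have h1 : Q w z (N - A.card) U (Γ ∪ A) ≤ (4 / 3) ^ A.card * Q w z (N - A.card) U Γ :=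
      iter_ghost (hC (N - A.card) (by omega)) U A Γ hd (by omega)
    have h2 := iter_down H (fun k hk => hA k hk.le) hC U Γ hΓ A.card hm
    have h3 : 0 < Q w z (N - A.card) U (Γ ∪ A) := hA _ (by omega) U _ (by
      have := Finset.card_union_le Γ A
      omega)
    have h4 : Q w z (N - A.card) U (Γ ∪ A) ≤ 4 ^ A.card * Q w z N U Γ := by
      calc Q w z (N - A.card) U (Γ ∪ A) ≤ (4 / 3) ^ A.card * Q w z (N - A.card) U Γ := h1
        _ ≤ (4 / 3) ^ A.card * (3 ^ A.card * Q w z N U Γ) :=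
            mul_le_mul_of_nonneg_left h2 (by positivity)
        _ = 4 ^ A.card * Q w z N U Γ := by
            rw [← mul_assoc, ← mul_pow]; norm_num
    have h5 : (N.descFactorial A.card : ℝ) ≤ (M : ℝ) ^ A.card := by
      calc (N.descFactorial A.card : ℝ) ≤ ((N ^ A.card : ℕ) : ℝ) := by
            exact_mod_cast Nat.descFactorial_le_pow N A.card
        _ = (N : ℝ) ^ A.card := by push_cast; ring
        _ ≤ (M : ℝ) ^ A.card := by
            have : (N : ℝ) ≤ M := by exact_mod_cast (by omega : N ≤ M)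
            exact pow_le_pow_left₀ (by positivity) this _
    rw [abs_mul, abs_mul, abs_mul, abs_pow, abs_neg, abs_of_nonneg hz, abs_of_pos h3,
      abs_of_nonneg (phi_nonneg H.w0 _ _ _), abs_of_nonneg (by positivity)]
    calc (N.descFactorial A.card : ℝ) * z ^ A.card * phi w U Γ A * Q w z (N - A.card) U (Γ ∪ A)
        ≤ (M : ℝ) ^ A.card * z ^ A.card * 1 * (4 ^ A.card * Q w z N U Γ) := by
          gcongr
          · exact phi_nonneg H.w0 _ _ _
          · exact phi_le_one H.w0 H.w1 _ _ _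
      _ = (4 * M * z) ^ A.card * Q w z N U Γ := by
          rw [mul_pow, mul_pow]; ring
  · have : N.descFactorial A.card = 0 := Nat.descFactorial_eq_zero_iff_lt.mpr (by omega)
    rw [this]
    simp only [Nat.cast_zero, zero_mul, abs_zero]
    positivity

/-- cost of the set `T` -/
noncomputable def cost (w : Finset V → ℝ) (z : ℝ) (M : ℕ) (Γ T : Finset V) : ℝ :=
  if T ⊆ Γ then 0 else (1 - w T) * (4 * M * z) ^ (T \ Γ).card

theorem cost_nonneg {w : Finset V → ℝ} {z : ℝ} {M : ℕ} {τ : ℝ} (H : Hyp w z M τ)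
    (Γ T : Finset V) : 0 ≤ cost w z M Γ T := by
  unfold cost
  have := H.w1 T
  have := H.z0
  split_ifs
  · exact le_rfl
  · have : 0 ≤ 1 - w T := by linarith
    positivity

theorem cost_le_one {w : Finset V → ℝ} {z : ℝ} {M : ℕ} {τ : ℝ} (H : Hyp w z M τ)
    (Γ T : Finset V) : cost w z M Γ T ≤ 1 := by
  unfold cost
  have h1 := H.w1 T
  have h0 := H.w0 T
  have hz := H.z0
  split_ifs
  · exact zero_le_one
  · have h2 : (4 * M * z) ^ (T \ Γ).card ≤ 1 := pow_le_one₀ (by positivity) H.kap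
    have h3 : 0 ≤ (4 * M * z) ^ (T \ Γ).card := by positivity
    nlinarith

theorem insert_bounds {w : Finset V → ℝ} {z : ℝ} {M : ℕ} {τ : ℝ} (H : Hyp w z M τ) {N : ℕ}
    (hA : ∀ k ≤ N, Posi w z M k) (hC : ∀ k < N, Upp w z M k) (U : Finset (Finset V))
    (Γ T : Finset V) (hTU : T ∉ U) (hΓ : Γ.card + N ≤ M) :
    Q w z N (insert T U) Γ ≤ (1 + cost w z M Γ T) * Q w z N U Γ ∧
    (1 - cost w z M Γ T) * Q w z N U Γ ≤ Q w z N (insert T U) Γ := by
  by_cases hT : T ⊆ Γ
  · rw [Q_insert_of_subset w z N U Γ T hT]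
    unfold cost
    rw [if_pos hT]
    constructor <;> linarith
  · rw [Q_insert w z N U Γ T hT hTU]
    unfold cost
    rw [if_neg hT]
    have hA1 : 1 ≤ (T \ Γ).card := by
      rw [Nat.one_le_iff_ne_zero, Ne, Finset.card_eq_zero, Finset.sdiff_eq_empty_iff_subset]
      exact hT
    have hb := term_bound H hA hC U Γ (T \ Γ) Finset.sdiff_disjoint hA1 hΓ
    rw [abs_le] at hb
    have h1 : 0 ≤ 1 - w T := by have := H.w1 T; linarith
    constructor
    · nlinarith [mul_le_mul_of_nonneg_left hb.1 h1]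
    · nlinarith [mul_le_mul_of_nonneg_left hb.2 h1]

/-- inserting a family of sets -/
theorem insert_family {w : Finset V → ℝ} {z : ℝ} {M : ℕ} {τ : ℝ} (H : Hyp w z M τ) {N : ℕ}
    (hA : ∀ k ≤ N, Posi w z M k) (hC : ∀ k < N, Upp w z M k) (U : Finset (Finset V))
    (Γ : Finset V) (hΓ : Γ.card + N ≤ M) (D : Finset (Finset V)) (hD : Disjoint U D) :
    Q w z N (U ∪ D) Γ ≤ (∏ T ∈ D, (1 + cost w z M Γ T)) * Q w z N U Γ ∧
    (∏ T ∈ D, (1 - cost w z M Γ T)) * Q w z N U Γ ≤ Q w z N (U ∪ D) Γ := by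
  induction D using Finset.induction_on with
  | empty => simp
  | insert T D hTD ih =>
    rw [Finset.disjoint_insert_right] at hD
    have h1 := ih hD.2
    have h2 : U ∪ insert T D = insert T (U ∪ D) := by
      rw [Finset.union_insert]
    have h3 := insert_bounds H hA hC (U ∪ D) Γ T (by simp [hD.1, hTD]) hΓ
    have hc0 := cost_nonneg H Γ T
    have hc1 := cost_le_one H Γ T
    rw [h2, Finset.prod_insert hTD, Finset.prod_insert hTD]
    constructor
    · calc Q w z N (insert T (U ∪ D)) Γ ≤ (1 + cost w z M Γ T) * Q w z N (U ∪ D) Γ := h3.1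
        _ ≤ (1 + cost w z M Γ T) * ((∏ T ∈ D, (1 + cost w z M Γ T)) * Q w z N U Γ) :=
            mul_le_mul_of_nonneg_left h1.1 (by linarith)
        _ = _ := by ring
    · calc (1 - cost w z M Γ T) * (∏ T ∈ D, (1 - cost w z M Γ T)) * Q w z N U Γ
          = (1 - cost w z M Γ T) * ((∏ T ∈ D, (1 - cost w z M Γ T)) * Q w z N U Γ) := by ring
        _ ≤ (1 - cost w z M Γ T) * Q w z N (U ∪ D) Γ :=
            mul_le_mul_of_nonneg_left h1.2 (by linarith)
        _ ≤ _ := h3.2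

theorem sum_cost_le {w : Finset V → ℝ} {z : ℝ} {M : ℕ} {τ : ℝ} (H : Hyp w z M τ)
    (U : Finset (Finset V)) (Γ : Finset V) (v : V) (hv : v ∈ Γ) (hΓ : Γ.card ≤ M) :
    ∑ T ∈ U.filter (fun T => v ∈ T), cost w z M Γ T ≤ τ := by
  refine le_trans ?_ (H.sum Γ v hv hΓ)
  have h1 : ∑ T ∈ U.filter (fun T => v ∈ T), cost w z M Γ T
      = ∑ T ∈ (U.filter (fun T => v ∈ T)).filter (fun T => ¬ T ⊆ Γ),
        (1 - w T) * (4 * M * z) ^ (T \ Γ).card := by
    rw [Finset.sum_filter (fun T => ¬ T ⊆ Γ)]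
    refine Finset.sum_congr rfl fun T _ => ?_
    unfold cost
    split_ifs <;> simp_all
  rw [h1]
  refine Finset.sum_le_sum_of_subset_of_nonneg ?_ ?_
  · intro T
    simp only [mem_filter, mem_univ, true_and]
    tauto
  · intro T _ _
    have := H.w1 T
    have := H.z0
    have : 0 ≤ 1 - w T := by linarith
    positivity

theorem filter_union_filter (U : Finset (Finset V)) (v : V) :
    U.filter (fun T => v ∉ T) ∪ U.filter (fun T => v ∈ T) = U := by
  ext T
  simp only [mem_union, mem_filter]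
  tauto

/-- the upper bound at level `N` -/
theorem upp_step {w : Finset V → ℝ} {z : ℝ} {M : ℕ} {τ : ℝ} (H : Hyp w z M τ) {N : ℕ}
    (hA : ∀ k ≤ N, Posi w z M k) (hC : ∀ k < N, Upp w z M k) : Upp w z M N := by
  intro U Γ v hv hΓ
  have hz := H.z0
  have hcard : (Γ ∪ {v}).card = Γ.card + 1 := by
    rw [Finset.card_union_of_disjoint (by simpa using hv)]; simp
  have hQ : 0 < Q w z N U Γ := hA N le_rfl U Γ (by omega)
  -- deletion
  have hdel := Q_delete w z N U Γ v hv
  have hdel' : Q w z N (U.filter (fun T => v ∉ T)) (Γ ∪ {v}) ≤ (1 + 4 * M * z) * Q w z N U Γ := by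
    cases N with
    | zero =>
      rw [Q_zero, Q_zero]
      have : 0 ≤ 4 * M * z := by positivity
      linarith
    | succ N =>
      simp only [Nat.add_sub_cancel] at hdel
      have h1 := hC N (by omega) U Γ v hv (by omega)
      have h2 := step_B H (hA N (by omega)) (hC N (by omega)) U Γ (by omega)
      have h3 : 0 < Q w z N U (Γ ∪ {v}) := hA N (by omega) U _ (by omega)
      have h4 : Q w z N U (Γ ∪ {v}) ≤ 4 * Q w z (N + 1) U Γ := by linarith
      have hNM : ((N + 1 : ℕ) : ℝ) ≤ M := by exact_mod_cast (by omega : N + 1 ≤ M)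
      have h5 : ((N + 1 : ℕ) : ℝ) * z * phi w U Γ {v} * Q w z N U (Γ ∪ {v})
          ≤ M * z * 1 * (4 * Q w z (N + 1) U Γ) := by
        gcongr
        · exact phi_nonneg H.w0 _ _ _
        · exact phi_le_one H.w0 H.w1 _ _ _
      nlinarith
  have hfam := (insert_family H hA hC (U.filter (fun T => v ∉ T)) (Γ ∪ {v}) (by omega)
    (U.filter (fun T => v ∈ T)) (by
      rw [Finset.disjoint_left]
      intro T h1 h2
      exact (Finset.mem_filter.mp h1).2 (Finset.mem_filter.mp h2).2)).1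
  rw [filter_union_filter] at hfam
  have hprod : ∏ T ∈ U.filter (fun T => v ∈ T), (1 + cost w z M (Γ ∪ {v}) T) ≤ Real.exp τ := by
    calc ∏ T ∈ U.filter (fun T => v ∈ T), (1 + cost w z M (Γ ∪ {v}) T)
        ≤ ∏ T ∈ U.filter (fun T => v ∈ T), Real.exp (cost w z M (Γ ∪ {v}) T) := by
          refine Finset.prod_le_prod (fun T _ => ?_) (fun T _ => ?_)
          · have := cost_nonneg H (Γ ∪ {v}) T; linarith
          · have := Real.add_one_le_exp (cost w z M (Γ ∪ {v}) T); linarith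
      _ = Real.exp (∑ T ∈ U.filter (fun T => v ∈ T), cost w z M (Γ ∪ {v}) T) := by
          rw [Real.exp_sum]
      _ ≤ Real.exp τ := by
          rw [Real.exp_le_exp]
          exact sum_cost_le H U (Γ ∪ {v}) v (by simp) (by omega)
  have hQ0 : 0 < Q w z N (U.filter (fun T => v ∉ T)) (Γ ∪ {v}) :=
    hA N le_rfl _ _ (by omega)
  calc Q w z N U (Γ ∪ {v})
      ≤ (∏ T ∈ U.filter (fun T => v ∈ T), (1 + cost w z M (Γ ∪ {v}) T)) *
          Q w z N (U.filter (fun T => v ∉ T)) (Γ ∪ {v}) := hfam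
    _ ≤ Real.exp τ * Q w z N (U.filter (fun T => v ∉ T)) (Γ ∪ {v}) :=
        mul_le_mul_of_nonneg_right hprod hQ0.le
    _ ≤ Real.exp τ * ((1 + 4 * M * z) * Q w z N U Γ) :=
        mul_le_mul_of_nonneg_left hdel' (Real.exp_pos _).le
    _ = ((1 + 4 * M * z) * Real.exp τ) * Q w z N U Γ := by ring
    _ ≤ 4 / 3 * Q w z N U Γ := mul_le_mul_of_nonneg_right H.tau hQ.le

/-- main induction -/
theorem main_bounds {w : Finset V → ℝ} {z : ℝ} {M : ℕ} {τ : ℝ} (H : Hyp w z M τ) (N : ℕ) :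
    Posi w z M N ∧ Upp w z M N := by
  induction N using Nat.strong_induction_on with
  | _ N ih =>
    have hPos : Posi w z M N := by
      cases N with
      | zero =>
        intro U Γ _
        rw [Q_zero]; exact one_pos
      | succ N =>
        intro U Γ hΓ
        have h1 := ih N (by omega)
        have h2 := step_B H h1.1 h1.2 U Γ hΓ
        have h3 := h1.1 U Γ (by omega)
        linarith
    refine ⟨hPos, upp_step H ?_ (fun k hk => (ih k hk).2)⟩
    intro k hk
    rcases Nat.lt_or_eq_of_le hk with h | h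
    · exact (ih k h).1
    · rw [h]; exact hPos

theorem one_sub_sum_le_prod {ι : Type*} (s : Finset ι) (f : ι → ℝ)
    (h0 : ∀ i ∈ s, 0 ≤ f i) (h1 : ∀ i ∈ s, f i ≤ 1) :
    1 - ∑ i ∈ s, f i ≤ ∏ i ∈ s, (1 - f i) := by
  classical
  induction s using Finset.induction_on with
  | empty => simp
  | insert a s ha ih =>
    rw [Finset.sum_insert ha, Finset.prod_insert ha]
    have hi := ih (fun i hi => h0 i (Finset.mem_insert_of_mem hi))
      (fun i hi => h1 i (Finset.mem_insert_of_mem hi))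
    have ha0 := h0 a (Finset.mem_insert_self _ _)
    have ha1 := h1 a (Finset.mem_insert_self _ _)
    have hs : 0 ≤ ∑ i ∈ s, f i :=
      Finset.sum_nonneg fun i hi => h0 i (Finset.mem_insert_of_mem hi)
    have h2 : (1 - f a) * (1 - ∑ i ∈ s, f i) ≤ (1 - f a) * ∏ i ∈ s, (1 - f i) :=
      mul_le_mul_of_nonneg_left hi (by linarith)
    nlinarith [mul_nonneg ha0 hs]

/-- lower ratio bound -/
theorem low {w : Finset V → ℝ} {z : ℝ} {M : ℕ} {τ : ℝ} (H : Hyp w z M τ) (N : ℕ)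
    (U : Finset (Finset V)) (Γ : Finset V) (v : V) (hv : v ∉ Γ) (hΓ : Γ.card + 1 + N ≤ M) :
    (1 - τ) * Q w z N U Γ ≤ Q w z N U (Γ ∪ {v}) := by
  have hz := H.z0
  have hcard : (Γ ∪ {v}).card = Γ.card + 1 := by
    rw [Finset.card_union_of_disjoint (by simpa using hv)]; simp
  have hQ : 0 < Q w z N U Γ := (main_bounds H N).1 U Γ (by omega)
  have hdel := Q_delete w z N U Γ v hv
  have hdel' : Q w z N U Γ ≤ Q w z N (U.filter (fun T => v ∉ T)) (Γ ∪ {v}) := by
    cases N with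
    | zero => rw [Q_zero, Q_zero]
    | succ N =>
      simp only [Nat.add_sub_cancel] at hdel
      have h3 : 0 < Q w z N U (Γ ∪ {v}) := (main_bounds H N).1 U _ (by omega)
      have h4 := phi_nonneg H.w0 U Γ {v}
      have : 0 ≤ ((N + 1 : ℕ) : ℝ) * z * phi w U Γ {v} * Q w z N U (Γ ∪ {v}) := by positivity
      linarith
  have hfam := (insert_family H (N := N) (fun k _ => (main_bounds H k).1)
    (fun k _ => (main_bounds H k).2) (U.filter (fun T => v ∉ T)) (Γ ∪ {v}) (by omega)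
    (U.filter (fun T => v ∈ T)) (by
      rw [Finset.disjoint_left]
      intro T h1 h2
      exact (Finset.mem_filter.mp h1).2 (Finset.mem_filter.mp h2).2)).2
  rw [filter_union_filter] at hfam
  have hprod : 1 - τ ≤ ∏ T ∈ U.filter (fun T => v ∈ T), (1 - cost w z M (Γ ∪ {v}) T) := by
    have h1 := one_sub_sum_le_prod (U.filter (fun T => v ∈ T))
      (fun T => cost w z M (Γ ∪ {v}) T)
      (fun T _ => cost_nonneg H _ T) (fun T _ => cost_le_one H _ T)
    have h2 := sum_cost_le H U (Γ ∪ {v}) v (by simp) (by omega)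
    linarith
  have hQ0 : 0 < Q w z N (U.filter (fun T => v ∉ T)) (Γ ∪ {v}) :=
    (main_bounds H N).1 _ _ (by omega)
  have hτ : 0 ≤ 1 - τ := by have := H.tau1; linarith
  calc (1 - τ) * Q w z N U Γ
      ≤ (1 - τ) * Q w z N (U.filter (fun T => v ∉ T)) (Γ ∪ {v}) :=
        mul_le_mul_of_nonneg_left hdel' hτ
    _ ≤ (∏ T ∈ U.filter (fun T => v ∈ T), (1 - cost w z M (Γ ∪ {v}) T)) *
          Q w z N (U.filter (fun T => v ∉ T)) (Γ ∪ {v}) :=
        mul_le_mul_of_nonneg_right hprod hQ0.le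
    _ ≤ Q w z N U (Γ ∪ {v}) := hfam

end Pool.Agent.Lib_helper81.FD
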