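import Mathlib

set_option autoImplicit false

/-!
# Shearer type positivity for hypergraph independence polynomials at negative activity

`phi w U Γ Y` is the product of the weights `w T` over the sets `T ∈ U` with `T ⊆ Γ ∪ Y`, `T ⊄ Γ`.
`Q w z N U Γ = ∑_{Y ⊆ V \ Γ} (N)_{|Y|} (-z)^{|Y|} phi w U Γ Y`.
-/

namespace Pool.Agent.Lib_helper81.FD

open Finset

variable {V : Type*} [Fintype V] [DecidableEq V]

/-- interaction weight of `Y` with background `Γ` -/
noncomputable def phi (w : Finset V → ℝ) (U : Finset (Finset V)) (Γ Y : Finset V) : ℝ :=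
  ∏ T ∈ U.filter (fun T => T ⊆ Γ ∪ Y ∧ ¬ T ⊆ Γ), w T

/-- partition function at negative activity -/
noncomputable def Q (w : Finset V → ℝ) (z : ℝ) (N : ℕ) (U : Finset (Finset V)) (Γ : Finset V) : ℝ :=
  ∑ Y ∈ (Finset.univ \ Γ).powerset, (N.descFactorial Y.card : ℝ) * (-z) ^ Y.card * phi w U Γ Y

theorem phi_nonneg {w : Finset V → ℝ} (hw : ∀ T, 0 ≤ w T) (U : Finset (Finset V))
    (Γ Y : Finset V) : 0 ≤ phi w U Γ Y :=
  Finset.prod_nonneg fun T _ => hw T

theorem phi_le_one {w : Finset V → ℝ} (hw : ∀ T, 0 ≤ w T) (hw1 : ∀ T, w T ≤ 1)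
    (U : Finset (Finset V)) (Γ Y : Finset V) : phi w U Γ Y ≤ 1 :=
  Finset.prod_le_one (fun T _ => hw T) (fun T _ => hw1 T)

theorem phi_union (w : Finset V → ℝ) (U : Finset (Finset V)) (Γ A Y : Finset V) :
    phi w U Γ (A ∪ Y) = phi w U Γ A * phi w U (Γ ∪ A) Y := by
  unfold phi
  rw [← Finset.prod_union]
  · congr 1
    ext T
    simp only [mem_filter, mem_union]
    constructor
    · rintro ⟨hT, h1, h2⟩
      by_cases h : T ⊆ Γ ∪ A
      · exact Or.inl ⟨hT, h, h2⟩
      · exact Or.inr ⟨hT, by rwa [Finset.union_assoc], h⟩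
    · rintro (⟨hT, h1, h2⟩ | ⟨hT, h1, h2⟩)
      · exact ⟨hT, h1.trans (by intro x hx; simp only [mem_union] at hx ⊢; tauto), h2⟩
      · refine ⟨hT, by rwa [← Finset.union_assoc], fun h => h2 (h.trans Finset.subset_union_left)⟩
  · rw [Finset.disjoint_left]
    intro T h1 h2
    simp only [mem_filter] at h1 h2
    exact h2.2.2 h1.2.1

@[simp] theorem phi_empty (w : Finset V → ℝ) (U : Finset (Finset V)) (Γ : Finset V) :
    phi w U Γ ∅ = 1 := by
  unfold phi
  rw [Finset.filter_false_of_mem, Finset.prod_empty]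
  intro T _ h
  exact h.2 (by simpa using h.1)

theorem Q_zero (w : Finset V → ℝ) (z : ℝ) (U : Finset (Finset V)) (Γ : Finset V) :
    Q w z 0 U Γ = 1 := by
  unfold Q
  rw [Finset.sum_eq_single ∅]
  · simp
  · intro Y _ hY
    have : 0 < Y.card := Finset.card_pos.mpr (Finset.nonempty_iff_ne_empty.mpr hY)
    rw [Nat.descFactorial_eq_zero_iff_lt.mpr this]
    simp
  · intro h
    exact absurd (Finset.mem_powerset.mpr (Finset.empty_subset _)) h

/-- The sum over the sets containing a fixed `A`. -/
theorem sum_superset (w : Finset V → ℝ) (z : ℝ) (N : ℕ) (U : Finset (Finset V))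
    (Γ A : Finset V) (hA : Disjoint A Γ) :
    ∑ Y ∈ (Finset.univ \ Γ).powerset.filter (fun Y => A ⊆ Y),
      (N.descFactorial Y.card : ℝ) * (-z) ^ Y.card * phi w U Γ Y
    = (N.descFactorial A.card : ℝ) * (-z) ^ A.card * phi w U Γ A *
        Q w z (N - A.card) U (Γ ∪ A) := by
  unfold Q
  rw [Finset.mul_sum]
  symm
  refine Finset.sum_bij' (fun Y _ => A ∪ Y) (fun Y _ => Y \ A) ?_ ?_ ?_ ?_ ?_
  · intro Y hY
    simp only [mem_powerset, mem_filter] at hY ⊢
    refine ⟨?_, Finset.subset_union_left⟩
    intro x hx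
    rcases Finset.mem_union.mp hx with h | h
    · simp only [mem_sdiff, mem_univ, true_and]
      exact Finset.disjoint_left.mp hA h
    · have := hY h
      simp only [mem_sdiff, mem_univ, true_and, mem_union, not_or] at this ⊢
      exact this.1
  · intro Y hY
    simp only [mem_powerset, mem_filter] at hY ⊢
    intro x hx
    simp only [mem_sdiff, mem_univ, true_and, mem_union, not_or] at hx ⊢
    have := hY.1 hx.1
    simp only [mem_sdiff, mem_univ, true_and] at this
    exact ⟨this, hx.2⟩
  · intro Y hY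
    simp only [mem_powerset] at hY
    have hd : Disjoint A Y := by
      rw [Finset.disjoint_left]
      intro x hxA hxY
      have := hY hxY
      simp only [mem_sdiff, mem_univ, true_and, mem_union, not_or] at this
      exact this.2 hxA
    ext x
    simp only [mem_sdiff, mem_union]
    constructor
    · rintro ⟨h1 | h1, h2⟩
      · exact absurd h1 h2
      · exact h1
    · intro h
      exact ⟨Or.inr h, fun h' => Finset.disjoint_left.mp hd h' h⟩
  · intro Y hY
    simp only [mem_filter] at hY
    exact Finset.union_sdiff_of_subset hY.2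
  · intro Y hY
    simp only [mem_powerset] at hY
    have hd : Disjoint A Y := by
      rw [Finset.disjoint_left]
      intro x hxA hxY
      have := hY hxY
      simp only [mem_sdiff, mem_univ, true_and, mem_union, not_or] at this
      exact this.2 hxA
    rw [Finset.card_union_of_disjoint hd, phi_union, pow_add]
    have h := Nat.descFactorial_mul_descFactorial (n := N) (k := A.card)
      (m := A.card + Y.card) (Nat.le_add_right _ _)
    rw [Nat.add_sub_cancel_left] at h
    rw [← h]
    push_cast
    ring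

end Pool.Agent.Lib_helper81.FD
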