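import Pool.Agent.Lib_helper81.FD.Measure

set_option autoImplicit false

/-!
# From the measure to fractional decompositions
-/

namespace Pool.Agent.Lib_helper81.FD

open Finset

variable {V : Type*} [Fintype V] [DecidableEq V]

/-- `K` spans a complete `r`-graph on `q` vertices in `E`. -/
def Clique (E : Finset (Finset V)) (q r : ℕ) (K : Finset V) : Prop :=
  K.card = q ∧ ∀ e : Finset V, e ⊆ K → e.card = r → e ∈ E

theorem phi_edge (E : Finset (Finset V)) (r : ℕ) (hr : 1 ≤ r) (ε : ℝ) (y : Finset V → ℝ)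
    (e : Finset V) (he : e.card = r) :
    phi (wt E r ε y) Finset.univ ∅ e = wt E r ε y e := by
  unfold phi
  rw [Finset.prod_eq_single e]
  · intro T hT hTe
    simp only [mem_filter, mem_univ, true_and, empty_union] at hT
    unfold wt
    rw [if_neg]
    intro h
    exact hTe (Finset.eq_of_subset_of_card_le hT.1 (by omega))
  · intro h
    exfalso
    apply h
    simp only [mem_filter, mem_univ, true_and, empty_union]
    refine ⟨Finset.Subset.refl _, fun h => ?_⟩
    rw [Finset.subset_empty] at h
    rw [h] at he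
    simp at he
    omega

/-- number of `q`-sets between `e` and `X` -/
theorem card_between (e X : Finset V) (heX : e ⊆ X) (q : ℕ) (hq : e.card ≤ q) :
    ((Finset.univ : Finset (Finset V)).filter (fun K => e ⊆ K ∧ K.card = q ∧ K ⊆ X)).card
      = (X.card - e.card).choose (q - e.card) := by
  rw [← Finset.card_sdiff_of_subset heX, ← Finset.card_powersetCard]
  refine Finset.card_bij' (fun K _ => K \ e) (fun Y _ => e ∪ Y) ?_ ?_ ?_ ?_
  · intro K hK
    simp only [mem_filter, mem_univ, true_and] at hK
    rw [mem_powersetCard]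
    exact ⟨Finset.sdiff_subset_sdiff hK.2.2 (Finset.Subset.refl _), by
      rw [Finset.card_sdiff_of_subset hK.1, hK.2.1]⟩
  · intro Y hY
    rw [mem_powersetCard] at hY
    have hd : Disjoint e Y := by
      rw [Finset.disjoint_right]
      intro x hx
      exact (Finset.mem_sdiff.mp (hY.1 hx)).2
    simp only [mem_filter, mem_univ, true_and]
    refine ⟨Finset.subset_union_left, ?_, ?_⟩
    · rw [Finset.card_union_of_disjoint hd, hY.2]; omega
    · exact Finset.union_subset heX (hY.1.trans Finset.sdiff_subset)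
  · intro K hK
    simp only [mem_filter, mem_univ, true_and] at hK
    exact Finset.union_sdiff_of_subset hK.1
  · intro Y hY
    rw [mem_powersetCard] at hY
    have hd : Disjoint e Y := by
      rw [Finset.disjoint_right]
      intro x hx
      exact (Finset.mem_sdiff.mp (hY.1 hx)).2
    exact Finset.union_sdiff_cancel_left hd

/-- the unnormalised weights on `q`-sets -/
noncomputable def WW (p : Finset V → ℝ) (q r : ℕ) (K : Finset V) : ℝ :=
  if K.card = q then
    ∑ X ∈ (Finset.univ : Finset (Finset V)).filter (fun X => K ⊆ X),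
      p X / ((X.card - r).choose (q - r) : ℝ)
  else 0

theorem WW_sum (p : Finset V → ℝ) (q r : ℕ) (hq : r ≤ q) (e : Finset V) (he : e.card = r) :
    ∑ K ∈ (Finset.univ : Finset (Finset V)).filter (fun K => e ⊆ K), WW p q r K
      = ∑ X ∈ (Finset.univ : Finset (Finset V)).filter (fun X => e ⊆ X ∧ ¬ X.card < q), p X := by
  have h1 : ∑ K ∈ (Finset.univ : Finset (Finset V)).filter (fun K => e ⊆ K), WW p q r K
      = ∑ K ∈ (Finset.univ : Finset (Finset V)).filter (fun K => e ⊆ K ∧ K.card = q),
        ∑ X ∈ (Finset.univ : Finset (Finset V)).filter (fun X => K ⊆ X),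
          p X / ((X.card - r).choose (q - r) : ℝ) := by
    rw [← Finset.filter_filter, Finset.sum_filter (fun K : Finset V => K.card = q)]
    rfl
  rw [h1]
  rw [Finset.sum_comm' (s' := fun X => (Finset.univ : Finset (Finset V)).filter
      (fun K => e ⊆ K ∧ K.card = q ∧ K ⊆ X))
    (t' := (Finset.univ : Finset (Finset V)).filter (fun X => e ⊆ X ∧ ¬ X.card < q))]
  · refine Finset.sum_congr rfl fun X hX => ?_
    simp only [mem_filter, mem_univ, true_and, not_lt] at hX
    rw [Finset.sum_const, card_between e X hX.1 q (by omega), he, nsmul_eq_mul]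
    have : ((X.card - r).choose (q - r) : ℝ) ≠ 0 := by
      have : 0 < (X.card - r).choose (q - r) := Nat.choose_pos (by omega)
      positivity
    field_simp
  · intro K X
    simp only [mem_filter, mem_univ, true_and]
    constructor
    · rintro ⟨⟨h1, h2⟩, h3⟩
      refine ⟨⟨h1, h2, h3⟩, h1.trans h3, ?_⟩
      have := Finset.card_le_card h3
      omega
    · rintro ⟨⟨h1, h2, h3⟩, _⟩
      exact ⟨⟨h1, h2⟩, h3⟩

/-- the dual inequality -/
theorem exists_W (E : Finset (Finset V)) (q r M : ℕ) (hr : 1 ≤ r) (hq : r ≤ q) (hM : r ≤ M)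
    {ε z τ : ℝ} (hz : 0 < z) (hε0 : 0 ≤ ε) (hε1 : ε ≤ 1) (y : Finset V → ℝ)
    (H : Hyp (wt E r ε y) z M τ)
    (havg : ∀ Γ : Finset V, Γ.card ≤ M →
      1 / 8 ≤ z / 2 * ((1 - τ) * ∑ v ∈ Finset.univ \ Γ, phi (wt E r ε y) Finset.univ Γ {v}))
    (hsmall : 2 ^ q * (7 / 8 : ℝ) ^ (M - r) ≤ ε / 2) :
    ∃ W : Finset V → ℝ, (∀ K, 0 ≤ W K) ∧ (∀ K, W K ≤ 2) ∧ (∀ K, ¬ Clique E q r K → W K = 0) ∧
      ∑ e ∈ E.filter (fun e => e.card = r),
        y e * ∑ K ∈ (Finset.univ : Finset (Finset V)).filter (fun K => e ⊆ K), W K ≤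
      ∑ e ∈ E.filter (fun e => e.card = r), y e := by
  set w := wt E r ε y with hw
  set lam : ℝ := (M.descFactorial r : ℝ) * z ^ r with hlam
  have hlam0 : 0 < lam := by
    have : 0 < M.descFactorial r := Nat.descFactorial_pos.mpr hM
    positivity
  have hlam' : 0 < lam * (1 - ε / 2) := mul_pos hlam0 (by linarith)
  set p := pm w z M with hp
  have hp0 : ∀ X, 0 ≤ p X := fun X => pm_nonneg H X
  -- edge sums
  have hedge : ∀ e ∈ E, e.card = r → ∃ x' : ℝ, 0 ≤ x' ∧ x' ≤ lam * (ε / 2) ∧
      ∑ K ∈ (Finset.univ : Finset (Finset V)).filter (fun K => e ⊆ K), WW p q r K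
        = lam * w e - x' := by
    intro e heE he
    have h1 := sum_pm_one w z M e
    have h2 := sum_pm_small H havg e (by omega) q
    rw [he, hw, phi_edge E r hr ε y e he, ← hw] at h1 h2
    refine ⟨∑ X ∈ (Finset.univ : Finset (Finset V)).filter (fun X => e ⊆ X ∧ X.card < q), p X,
      Finset.sum_nonneg fun X _ => hp0 X, ?_, ?_⟩
    · have hwe1 : w e ≤ 1 := H.w1 e
      have hwe0 : 0 ≤ w e := H.w0 e
      calc ∑ X ∈ (Finset.univ : Finset (Finset V)).filter (fun X => e ⊆ X ∧ X.card < q), p X
          ≤ 2 ^ q * (7 / 8) ^ (M - r) * (lam * w e) := h2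
        _ ≤ ε / 2 * (lam * 1) := by gcongr
        _ = lam * (ε / 2) := by ring
    · rw [WW_sum p q r hq e he, ← h1]
      have h3 := Finset.sum_filter_add_sum_filter_not
        ((Finset.univ : Finset (Finset V)).filter (fun X => e ⊆ X)) (fun X => X.card < q) p
      rw [Finset.filter_filter, Finset.filter_filter] at h3
      linarith
  have hWW0 : ∀ K, 0 ≤ WW p q r K := by
    intro K
    unfold WW
    split_ifs
    · refine Finset.sum_nonneg fun X _ => div_nonneg (hp0 X) (by positivity)
    · exact le_rfl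
  have hcl : ∀ K, ¬ Clique E q r K → WW p q r K = 0 := by
    intro K hK
    unfold WW
    split_ifs with hc
    · have : ∃ T : Finset V, T ⊆ K ∧ T.card = r ∧ T ∉ E := by
        by_contra hcon
        push Not at hcon
        exact hK ⟨hc, hcon⟩
      obtain ⟨T, hTK, hTr, hTE⟩ := this
      refine Finset.sum_eq_zero fun X hX => ?_
      simp only [mem_filter, mem_univ, true_and] at hX
      rw [hp, pm_eq_zero w z M X T (hTK.trans hX) (Finset.card_pos.mp (by omega)) (by
        rw [hw]; unfold wt; rw [if_pos hTr, if_neg hTE]), zero_div]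
    · rfl
  refine ⟨fun K => WW p q r K / (lam * (1 - ε / 2)), fun K => div_nonneg (hWW0 K) hlam'.le,
    ?_, ?_, ?_⟩
  · intro K
    by_cases hK : Clique E q r K
    · obtain ⟨e, heK, he⟩ := Finset.exists_subset_card_eq (s := K) (n := r) (by
        rw [hK.1]; exact hq)
      have heE := hK.2 e heK he
      obtain ⟨x', hx0, _, hx⟩ := hedge e heE he
      have h1 : WW p q r K ≤
          ∑ K ∈ (Finset.univ : Finset (Finset V)).filter (fun K => e ⊆ K), WW p q r K :=
        Finset.single_le_sum (f := fun K => WW p q r K) (fun K _ => hWW0 K) (by simpa using heK)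
      have hwe1 : w e ≤ 1 := H.w1 e
      rw [div_le_iff₀ hlam']
      nlinarith
    · show WW p q r K / _ ≤ 2
      rw [hcl K hK]; simp
  · intro K hK
    show WW p q r K / _ = 0
    rw [hcl K hK, zero_div]
  · refine Finset.sum_le_sum fun e he => ?_
    simp only [mem_filter] at he
    obtain ⟨x', hx0, hx1, hx⟩ := hedge e he.1 he.2
    have h2 : ∑ K ∈ (Finset.univ : Finset (Finset V)).filter (fun K => e ⊆ K),
        WW p q r K / (lam * (1 - ε / 2)) = (lam * w e - x') / (lam * (1 - ε / 2)) := by
      rw [← Finset.sum_div, hx]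
    rw [h2, mul_div_assoc', div_le_iff₀ hlam']
    by_cases hy : 0 < y e
    · have : w e = 1 - ε := by
        rw [hw]; unfold wt; rw [if_pos he.2, if_pos he.1, if_pos hy]
      rw [this]
      have h3 : lam * (1 - ε) - x' ≤ lam * (1 - ε / 2) := by nlinarith
      exact mul_le_mul_of_nonneg_left h3 hy.le
    · have : w e = 1 := by
        rw [hw]; unfold wt; rw [if_pos he.2, if_pos he.1, if_neg hy]
      rw [this]
      have h3 : lam * (1 - ε / 2) ≤ lam * 1 - x' := by nlinarith
      exact mul_le_mul_of_nonpos_left h3 (by linarith)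

/-- Duality: the dual inequality gives a fractional decomposition. -/
theorem frac_of_dual (E : Finset (Finset V)) (q r : ℕ) (hE : ∀ e ∈ E, e.card = r)
    (hdual : ∀ y : Finset V → ℝ, ∃ W : Finset V → ℝ, (∀ K, 0 ≤ W K) ∧ (∀ K, W K ≤ 2) ∧
      (∀ K, ¬ Clique E q r K → W K = 0) ∧
      ∑ e ∈ E.filter (fun e => e.card = r),
        y e * ∑ K ∈ (Finset.univ : Finset (Finset V)).filter (fun K => e ⊆ K), W K ≤
      ∑ e ∈ E.filter (fun e => e.card = r), y e) :
    ∃ W : Finset V → ℝ, (∀ K, 0 ≤ W K) ∧ (∀ K, W K ≠ 0 → Clique E q r K) ∧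
      ∀ e ∈ E, ∑ K ∈ (Finset.univ : Finset (Finset V)).filter (fun K => e ⊆ K), W K = 1 := by
  classical
  set b : Finset V → ℝ := fun K => if Clique E q r K then 2 else 0 with hb
  let Al : (Finset V → ℝ) →ₗ[ℝ] (Finset V → ℝ) :=
    { toFun := fun W e => if e ∈ E then
        ∑ K ∈ (Finset.univ : Finset (Finset V)).filter (fun K => e ⊆ K), W K else 0
      map_add' := by
        intro W W'
        ext e
        simp only [Pi.add_apply]
        split_ifs
        · rw [Finset.sum_add_distrib]
        · ring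
      map_smul' := by
        intro c W
        ext e
        simp only [Pi.smul_apply, smul_eq_mul, RingHom.id_apply]
        split_ifs
        · rw [Finset.mul_sum]
        · ring }
  have hAl : ∀ W e, Al W e = if e ∈ E then
        ∑ K ∈ (Finset.univ : Finset (Finset V)).filter (fun K => e ⊆ K), W K else 0 := by
    intro W e; rfl
  have hcont : Continuous Al := LinearMap.continuous_of_finiteDimensional Al
  have hcomp : IsCompact (Al '' Set.Icc (0 : Finset V → ℝ) b) := isCompact_Icc.image hcont
  have hconv : Convex ℝ (Al '' Set.Icc (0 : Finset V → ℝ) b) :=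
    (convex_Icc (𝕜 := ℝ) (0 : Finset V → ℝ) b).linear_image Al
  set o : Finset V → ℝ := fun e => if e ∈ E then 1 else 0 with ho
  by_cases hmem : o ∈ Al '' Set.Icc (0 : Finset V → ℝ) b
  · obtain ⟨W, ⟨hW0, hW1⟩, hW⟩ := hmem
    refine ⟨W, fun K => hW0 K, ?_, ?_⟩
    · intro K hK
      by_contra hcl
      apply hK
      have h1 := hW1 K
      have h2 := hW0 K
      simp only [hb, if_neg hcl] at h1
      exact le_antisymm h1 h2
    · intro e he
      have h1 : Al W e = o e := by rw [hW]
      rw [hAl, if_pos he, ho] at h1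
      simpa [he] using h1
  · exfalso
    obtain ⟨f, u, hf1, hf2⟩ := geometric_hahn_banach_point_closed hconv hcomp.isClosed hmem
    set y : Finset V → ℝ := fun e => f (Pi.single e 1) with hy
    have hfx : ∀ x : Finset V → ℝ, f x = ∑ e, x e * y e := by
      intro x
      have h1 : x = ∑ e, x e • (Pi.single e (1 : ℝ) : Finset V → ℝ) := by
        ext i
        rw [Finset.sum_apply]
        simp [Pi.single_apply]
      conv_lhs => rw [h1]
      rw [map_sum]
      refine Finset.sum_congr rfl fun e _ => ?_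
      rw [map_smul, smul_eq_mul]
    obtain ⟨W, hW0, hW2, hWc, hWs⟩ := hdual y
    have hEf : E.filter (fun e => e.card = r) = E := Finset.filter_true_of_mem hE
    rw [hEf] at hWs
    have hWS : W ∈ Set.Icc (0 : Finset V → ℝ) b := by
      refine ⟨fun K => hW0 K, fun K => ?_⟩
      simp only [hb]
      split_ifs with h
      · exact hW2 K
      · exact (hWc K h).le
    have h1 := hf2 (Al W) ⟨W, hWS, rfl⟩
    rw [hfx] at hf1 h1
    have h2 : ∑ e, o e * y e = ∑ e ∈ E, y e := by
      rw [ho]
      simp only [ite_mul, one_mul, zero_mul]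
      rw [Finset.sum_ite_mem, Finset.univ_inter]
    have h3 : ∑ e, Al W e * y e = ∑ e ∈ E, y e *
        ∑ K ∈ (Finset.univ : Finset (Finset V)).filter (fun K => e ⊆ K), W K := by
      simp only [hAl, ite_mul, zero_mul]
      rw [Finset.sum_ite_mem, Finset.univ_inter]
      refine Finset.sum_congr rfl fun e _ => ?_
      ring
    rw [h2] at hf1
    rw [h3] at h1
    linarith

end Pool.Agent.Lib_helper81.FD
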