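import Pool.Agent.Lib_helper81.FD.Dual

set_option autoImplicit false

/-!
# Constants and the fractional decomposition theorem
-/

namespace Pool.Agent.Lib_helper81.FD

open Finset Filter

theorem exp_eighth : Real.exp (1 / 8) ≤ 6 / 5 := by
  have h1 : Real.exp (1 / 8) ^ 8 = Real.exp 1 := by
    rw [← Real.exp_nat_mul]; norm_num
  have h2 := Real.exp_one_lt_d9
  by_contra h
  push Not at h
  have h3 : (6 / 5 : ℝ) ^ 8 < Real.exp (1 / 8) ^ 8 := by gcongr
  rw [h1] at h3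
  norm_num at h3
  linarith

/-- choice of the constant `L` -/
theorem exists_L (k : ℕ) : ∃ L : ℕ, 12 ≤ L ∧ ∀ q : ℕ, 1 ≤ q →
    2 ^ q * (7 / 8 : ℝ) ^ (L * q - (k + 2)) * (32 * (3 * ((L * q : ℕ) : ℝ)) ^ (k + 1)) ≤ 1 ∨
      L * q < k + 2 := by
  have ht := tendsto_pow_const_mul_const_pow_of_abs_lt_one (k + 1)
    (r := (7 / 8 : ℝ)) (by rw [abs_lt]; constructor <;> norm_num)
  set C : ℝ := 32 * 6 ^ (k + 1) * (8 / 7) ^ (k + 2) with hC
  have hC0 : 0 < C := by positivity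
  have hev := ht.eventually (gt_mem_nhds (show (0 : ℝ) < 1 / C by positivity))
  obtain ⟨m0, hm0⟩ := eventually_atTop.mp hev
  refine ⟨2 * max 6 m0, by omega, fun q hq => ?_⟩
  by_cases hlt : 2 * max 6 m0 * q < k + 2
  · exact Or.inr hlt
  · left
    push Not at hlt
    set K := max 6 m0 with hK
    have hK6 : 6 ≤ K := le_max_left _ _
    have hKm : m0 ≤ K * q := (le_max_right 6 m0).trans (Nat.le_mul_of_pos_right _ hq)
    have h1 := hm0 (K * q) hKm
    have h2 : (2 : ℝ) ^ q * (7 / 8) ^ (K * q) ≤ 1 := by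
      rw [pow_mul, ← mul_pow]
      refine pow_le_one₀ (by positivity) ?_
      have : (7 / 8 : ℝ) ^ K ≤ (7 / 8) ^ 6 :=
        pow_le_pow_of_le_one (by norm_num) (by norm_num) hK6
      calc 2 * (7 / 8 : ℝ) ^ K ≤ 2 * (7 / 8) ^ 6 := by linarith
        _ ≤ 1 := by norm_num
    have h3 : (7 / 8 : ℝ) ^ (2 * K * q - (k + 2)) = (8 / 7) ^ (k + 2) * (7 / 8) ^ (2 * K * q) := by
      obtain ⟨m, hm⟩ := Nat.exists_eq_add_of_le hlt
      rw [hm, Nat.add_sub_cancel_left, pow_add (7 / 8 : ℝ) (k + 2) m, ← mul_assoc, ← mul_pow]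
      norm_num
    have h4 : (7 / 8 : ℝ) ^ (2 * K * q) = (7 / 8) ^ (K * q) * (7 / 8) ^ (K * q) := by
      rw [← pow_add]; congr 1; ring
    have h5 : (3 * ((2 * K * q : ℕ) : ℝ)) ^ (k + 1) = 6 ^ (k + 1) * ((K * q : ℕ) : ℝ) ^ (k + 1) := by
      rw [← mul_pow]; congr 1; push_cast; ring
    rw [h3, h4, h5]
    have h6 : ((K * q : ℕ) : ℝ) ^ (k + 1) * (7 / 8) ^ (K * q) * C ≤ 1 := by
      rw [lt_div_iff₀ hC0] at h1
      exact h1.le
    have h7 : 0 ≤ ((K * q : ℕ) : ℝ) ^ (k + 1) * (7 / 8) ^ (K * q) * C := by positivity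
    calc 2 ^ q * ((8 / 7 : ℝ) ^ (k + 2) * ((7 / 8) ^ (K * q) * (7 / 8) ^ (K * q))) *
          (32 * (6 ^ (k + 1) * ((K * q : ℕ) : ℝ) ^ (k + 1)))
        = (2 ^ q * (7 / 8) ^ (K * q)) *
          (((K * q : ℕ) : ℝ) ^ (k + 1) * (7 / 8) ^ (K * q) * C) := by rw [hC]; ring
      _ ≤ 1 * 1 := mul_le_mul h2 h6 h7 zero_le_one
      _ = 1 := one_mul 1

variable {V : Type*} [Fintype V] [DecidableEq V]

/-- The fractional decomposition theorem, for a fixed `L` as in `exists_L`. -/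
theorem frac_main (k L q : ℕ) (hL12 : 12 ≤ L) (hq : k + 2 < q)
    (hL : 2 ^ q * (7 / 8 : ℝ) ^ (L * q - (k + 2)) * (32 * (3 * ((L * q : ℕ) : ℝ)) ^ (k + 1)) ≤ 1)
    (E : Finset (Finset V)) (hE : ∀ e ∈ E, e.card = k + 2)
    (hcod : ∀ S : Finset V, S.card = k + 1 →
      (1 - (1 / (16 * (3 * (L : ℝ)) ^ (k + 1))) / (q : ℝ) ^ (k + 1)) * (Fintype.card V : ℝ) ≤
        ((E.filter (fun e => S ⊆ e)).card : ℝ)) :
    ∃ W : Finset V → ℝ, (∀ K, 0 ≤ W K) ∧ (∀ K, W K ≠ 0 → Clique E q (k + 2) K) ∧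
      ∀ e ∈ E, ∑ K ∈ (Finset.univ : Finset (Finset V)).filter (fun K => e ⊆ K), W K = 1 := by
  classical
  set n := Fintype.card V with hn
  by_cases hnk : n < k + 2
  · have hE0 : E = ∅ := by
      rw [Finset.eq_empty_iff_forall_notMem]
      intro e he
      have h1 := hE e he
      have h2 := Finset.card_le_univ e
      omega
    refine ⟨fun _ => 0, fun _ => le_rfl, fun K hK => absurd rfl hK, fun e he => ?_⟩
    rw [hE0] at he; simp at he
  push Not at hnk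
  set M := L * q with hM
  have hLpos : (0 : ℝ) < L := by exact_mod_cast (by omega : 0 < L)
  have hqpos : (0 : ℝ) < q := by exact_mod_cast (by omega : 0 < q)
  have hMk : k + 2 ≤ M := by
    have : 1 * q ≤ L * q := Nat.mul_le_mul_right q (by omega)
    omega
  have hM1 : (1 : ℝ) ≤ M := by exact_mod_cast (by omega : 1 ≤ M)
  set ε : ℝ := 1 / (16 * (3 * (M : ℝ)) ^ (k + 1)) with hε
  have hδ : (1 / (16 * (3 * (L : ℝ)) ^ (k + 1))) / (q : ℝ) ^ (k + 1) = ε := by
    rw [hε, hM]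
    push_cast
    rw [div_div]
    congr 1
    rw [← mul_assoc 3 (L : ℝ) q, mul_pow (3 * (L : ℝ)) (q : ℝ)]
    ring
  rw [hδ] at hcod
  have h3M : (1 : ℝ) ≤ (3 * (M : ℝ)) ^ (k + 1) := one_le_pow₀ (by linarith)
  have h3M' : 3 * (M : ℝ) ≤ (3 * (M : ℝ)) ^ (k + 1) := le_self_pow₀ (by linarith) (by omega)
  have hε0 : 0 < ε := by positivity
  have hεM : ε * (3 * (M : ℝ)) ^ (k + 1) = 1 / 16 := by
    rw [hε]; field_simp
  have hε1 : ε ≤ 1 / 16 := by nlinarith
  have hnpos : (0 : ℝ) < n := by exact_mod_cast (by omega : 0 < n)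
  -- `n` is large
  have hnM : 20 * (M : ℝ) ≤ n := by
    obtain ⟨S, hS1, hS2⟩ := Finset.exists_subset_card_eq (s := (Finset.univ : Finset V))
      (n := k + 1) (by rw [Finset.card_univ]; omega)
    have h1 := hcod S hS2
    have h2 : (E.filter (fun e => S ⊆ e)).card ≤ (Finset.univ \ S).card := by
      calc (E.filter (fun e => S ⊆ e)).card ≤
          ((Finset.univ \ S).image (fun x => insert x S)).card := by
            refine Finset.card_le_card ?_
            intro e he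
            simp only [mem_filter] at he
            obtain ⟨a, ha, hae⟩ := (Finset.exists_eq_insert_iff (s := S) (t := e)).mpr
              ⟨he.2, by rw [hS2, hE e he.1]⟩
            exact Finset.mem_image.mpr ⟨a, by simpa using ha, hae⟩
        _ ≤ _ := Finset.card_image_le
    have h3 : ((Finset.univ \ S).card : ℝ) = (n : ℝ) - (k + 1) := by
      rw [Finset.card_sdiff_of_subset (Finset.subset_univ _), Finset.card_univ, hS2, ← hn,
        Nat.cast_sub (by omega)]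
      push_cast; ring
    have h4 : ((E.filter (fun e => S ⊆ e)).card : ℝ) ≤ (n : ℝ) - (k + 1) := by
      rw [← h3]; exact_mod_cast h2
    have h5 : (1 : ℝ) ≤ ε * n := by
      have : (0 : ℝ) ≤ k := by positivity
      nlinarith
    have h6 : (16 * (3 * (M : ℝ)) ^ (k + 1)) ≤ n := by
      rw [hε, div_mul_eq_mul_div, one_mul, le_div_iff₀ (by positivity)] at h5
      linarith
    linarith
  set z : ℝ := 1 / (2 * n) with hz
  have hz0 : 0 < z := by positivity
  have hzn : z * n = 1 / 2 := by rw [hz]; field_simp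
  have hκ : 4 * (M : ℝ) * z ≤ 1 / 10 := by
    have : 4 * (M : ℝ) * z * n = 2 * M := by
      calc 4 * (M : ℝ) * z * n = 4 * M * (z * n) := by ring
        _ = 2 * M := by rw [hzn]; ring
    nlinarith
  have hκn : 4 * (M : ℝ) * z * n = 2 * M := by
    calc 4 * (M : ℝ) * z * n = 4 * M * (z * n) := by ring
      _ = 2 * M := by rw [hzn]; ring
  have hκ0 : 0 ≤ 4 * (M : ℝ) * z := by positivity
  refine frac_of_dual E q (k + 2) hE fun y => ?_
  have hH : Hyp (wt E (k + 2) ε y) z M (1 / 8) := by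
    refine ⟨wt_nonneg E _ (by linarith) y, wt_le_one E _ hε0.le y, hz0.le, ?_, ?_, ?_, le_rfl, ?_⟩
    · rw [← hn, hzn]
    · calc (1 + 4 * (M : ℝ) * z) * Real.exp (1 / 8) ≤ (1 + 1 / 10) * (6 / 5) := by
            gcongr
            exact exp_eighth
        _ ≤ 4 / 3 := by norm_num
    · linarith
    · intro Γ v hv hΓ
      have h1 := hyp_sum E k hε0.le (by linarith : ε ≤ 1) hε0.le y hE hcod hκ0 Γ v hv
      refine h1.trans ?_
      rw [← hn]
      have hΓ' : (Γ.card : ℝ) ≤ M := by exact_mod_cast hΓ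
      have h2 : ((Γ.card : ℝ) + 4 * M * z * n) ^ k ≤ (3 * (M : ℝ)) ^ k := by
        refine pow_le_pow_left₀ (by positivity) ?_ _
        rw [hκn]; linarith
      calc 4 * (M : ℝ) * z * ((ε + ε) * n) * ((Γ.card : ℝ) + 4 * M * z * n) ^ k
          ≤ 4 * (M : ℝ) * z * ((ε + ε) * n) * (3 * (M : ℝ)) ^ k :=
            mul_le_mul_of_nonneg_left h2 (by positivity)
        _ = (4 * (M : ℝ) * z * n) * (2 * ε * (3 * (M : ℝ)) ^ k) := by ring
        _ = 2 * M * (2 * ε * (3 * (M : ℝ)) ^ k) := by rw [hκn]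
        _ = 4 / 3 * (ε * (3 * (M : ℝ)) ^ (k + 1)) := by rw [pow_succ]; ring
        _ ≤ 1 / 8 := by rw [hεM]; norm_num
  refine exists_W E q (k + 2) M (by omega) (by omega) hMk hz0 hε0.le (by linarith) y hH ?_ ?_
  · intro Γ hΓ
    have h1 := hyp_avg E k hε0.le (by linarith : ε ≤ 1) hε0.le y hE hcod Finset.univ Γ
    rw [← hn] at h1
    have hΓ' : (Γ.card : ℝ) ≤ M := by exact_mod_cast hΓ
    have h2 : (Γ.card : ℝ) ^ (k + 1) * ((ε + ε) * n) ≤ 1 / 8 * n := by
      have h3 : (Γ.card : ℝ) ^ (k + 1) ≤ (3 * (M : ℝ)) ^ (k + 1) :=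
        pow_le_pow_left₀ (by positivity) (by linarith) _
      calc (Γ.card : ℝ) ^ (k + 1) * ((ε + ε) * n)
          ≤ (3 * (M : ℝ)) ^ (k + 1) * ((ε + ε) * n) :=
            mul_le_mul_of_nonneg_right h3 (by positivity)
        _ = 2 * (ε * (3 * (M : ℝ)) ^ (k + 1)) * n := by ring
        _ = 1 / 8 * n := by rw [hεM]; ring
    have h4 : 33 / 40 * (n : ℝ) ≤
        ∑ v ∈ Finset.univ \ Γ, phi (wt E (k + 2) ε y) Finset.univ Γ {v} := by
      refine le_trans ?_ h1
      linarith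
    have h5 : z / 2 * ((1 - 1 / 8) * (33 / 40 * (n : ℝ))) = 231 / 1280 := by
      calc z / 2 * ((1 - 1 / 8) * (33 / 40 * (n : ℝ))) = (z * n) * (231 / 640) := by ring
        _ = 231 / 1280 := by rw [hzn]; norm_num
    calc (1 : ℝ) / 8 ≤ 231 / 1280 := by norm_num
      _ = z / 2 * ((1 - 1 / 8) * (33 / 40 * (n : ℝ))) := h5.symm
      _ ≤ _ := by gcongr
  · have h1 : 2 ^ q * (7 / 8 : ℝ) ^ (M - (k + 2)) * (32 * (3 * (M : ℝ)) ^ (k + 1)) ≤ 1 := hL
    have h2 : ε / 2 = 1 / (32 * (3 * (M : ℝ)) ^ (k + 1)) := by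
      rw [hε]; field_simp; norm_num
    rw [h2, le_div_iff₀ (by positivity)]
    exact h1

end Pool.Agent.Lib_helper81.FD
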