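import Pool.Agent.Lib_helper81.FD.Sum

set_option autoImplicit false

/-!
# The random set with prescribed correlation functions
-/

namespace Pool.Agent.Lib_helper81.FD

open Finset

variable {V : Type*} [Fintype V] [DecidableEq V]

/-- The (conditional) weight of the set `Y` -/
noncomputable def P (w : Finset V → ℝ) (z : ℝ) (N : ℕ) (U : Finset (Finset V))
    (Γ Y : Finset V) : ℝ :=
  (N.descFactorial Y.card : ℝ) * z ^ Y.card * phi w U Γ Y * Q w z (N - Y.card) U (Γ ∪ Y)

theorem P_union (w : Finset V → ℝ) (z : ℝ) (N : ℕ) (U : Finset (Finset V))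
    (Γ A Y : Finset V) (hd : Disjoint A Y) :
    P w z N U Γ (A ∪ Y) = (N.descFactorial A.card : ℝ) * z ^ A.card * phi w U Γ A *
      P w z (N - A.card) U (Γ ∪ A) Y := by
  unfold P
  rw [Finset.card_union_of_disjoint hd, phi_union, pow_add, Finset.union_assoc]
  have h := Nat.descFactorial_mul_descFactorial (n := N) (k := A.card)
    (m := A.card + Y.card) (Nat.le_add_right _ _)
  rw [Nat.add_sub_cancel_left] at h
  rw [← h, Nat.sub_sub]
  push_cast
  ring

theorem P_nonneg {w : Finset V → ℝ} {z : ℝ} {M : ℕ} {τ : ℝ} (H : Hyp w z M τ) (N : ℕ)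
    (U : Finset (Finset V)) (Γ Y : Finset V) (hΓ : Γ.card + N ≤ M) :
    0 ≤ P w z N U Γ Y := by
  unfold P
  have hz := H.z0
  have hphi := phi_nonneg H.w0 U Γ Y
  by_cases hY : Y.card ≤ N
  · have h1 := (main_bounds H (N - Y.card)).1 U (Γ ∪ Y) (by
      have := Finset.card_union_le Γ Y
      omega)
    positivity
  · have : N.descFactorial Y.card = 0 := Nat.descFactorial_eq_zero_iff_lt.mpr (by omega)
    rw [this]; simp

/-- generating function of the conditional measure -/
theorem sum_P (w : Finset V → ℝ) (z t : ℝ) (N : ℕ) (U : Finset (Finset V)) (Γ : Finset V) :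
    ∑ Y ∈ (Finset.univ \ Γ).powerset, t ^ Y.card * P w z N U Γ Y
      = Q w ((1 - t) * z) N U Γ := by
  have h1 : ∀ Y ∈ (Finset.univ \ Γ).powerset, t ^ Y.card * P w z N U Γ Y
      = ∑ Z ∈ (Finset.univ \ Γ).powerset.filter (fun Z => Y ⊆ Z),
        (-t) ^ Y.card * ((N.descFactorial Z.card : ℝ) * (-z) ^ Z.card * phi w U Γ Z) := by
    intro Y hY
    have hd : Disjoint Y Γ := by
      rw [Finset.mem_powerset] at hY
      rw [Finset.disjoint_left]
      intro x hx
      have := hY hx
      simpa using this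
    rw [← Finset.mul_sum, sum_superset w z N U Γ Y hd]
    unfold P
    have : (-z) ^ Y.card * (-t) ^ Y.card = z ^ Y.card * t ^ Y.card := by
      rw [← mul_pow, ← mul_pow]; ring
    calc t ^ Y.card * ((N.descFactorial Y.card : ℝ) * z ^ Y.card * phi w U Γ Y *
          Q w z (N - Y.card) U (Γ ∪ Y))
        = (z ^ Y.card * t ^ Y.card) * ((N.descFactorial Y.card : ℝ) * phi w U Γ Y *
          Q w z (N - Y.card) U (Γ ∪ Y)) := by ring
      _ = _ := by rw [← this]; ring
  rw [Finset.sum_congr rfl h1]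
  rw [Finset.sum_comm' (s' := fun Z => Z.powerset) (t' := (Finset.univ \ Γ).powerset)]
  · unfold Q
    refine Finset.sum_congr rfl fun Z _ => ?_
    rw [← Finset.sum_mul]
    have h2 := Finset.sum_pow_mul_eq_add_pow (-t) 1 Z
    simp only [one_pow, mul_one] at h2
    rw [h2]
    have : (-((1 - t) * z)) ^ Z.card = (-t + 1) ^ Z.card * (-z) ^ Z.card := by
      rw [← mul_pow]; ring
    rw [this]; ring
  · intro Y Z
    simp only [mem_powerset, mem_filter]
    constructor
    · rintro ⟨_, h2, h3⟩; exact ⟨h3, h2⟩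
    · rintro ⟨h3, h2⟩; exact ⟨h3.trans h2, h2, h3⟩

theorem Q_at_zero (w : Finset V → ℝ) (N : ℕ) (U : Finset (Finset V)) (Γ : Finset V) :
    Q w 0 N U Γ = 1 := by
  unfold Q
  rw [Finset.sum_eq_single ∅]
  · simp
  · intro Y _ hY
    have : Y.card ≠ 0 := by
      rw [Ne, Finset.card_eq_zero]; exact hY
    simp [this]
  · intro h
    exact absurd (Finset.mem_powerset.mpr (Finset.empty_subset _)) h

/-- exponential decay of the partition function -/
theorem Q_decay {w : Finset V → ℝ} {z : ℝ} {M : ℕ} {τ : ℝ} (H : Hyp w z M τ)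
    (U : Finset (Finset V))
    (havg : ∀ Γ : Finset V, Γ.card ≤ M →
      1 / 8 ≤ z * ((1 - τ) * ∑ v ∈ Finset.univ \ Γ, phi w U Γ {v}))
    (N : ℕ) (Γ : Finset V) (hΓ : Γ.card + N ≤ M) : Q w z N U Γ ≤ (7 / 8) ^ N := by
  induction N with
  | zero => rw [Q_zero]; simp
  | succ N ih =>
    have h1 := ih (by omega)
    have hQ : 0 < Q w z N U Γ := (main_bounds H N).1 U Γ (by omega)
    have hτ : 0 ≤ 1 - τ := by have := H.tau1; linarith
    rw [Q_succ]
    have h2 : (∑ v ∈ Finset.univ \ Γ, phi w U Γ {v}) * ((1 - τ) * Q w z N U Γ) ≤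
        ∑ v ∈ Finset.univ \ Γ, phi w U Γ {v} * Q w z N U (Γ ∪ {v}) := by
      rw [Finset.sum_mul]
      refine Finset.sum_le_sum fun v hv => ?_
      refine mul_le_mul_of_nonneg_left ?_ (phi_nonneg H.w0 _ _ _)
      exact low H N U Γ v (by simpa using hv) (by omega)
    have h3 := havg Γ (by omega)
    have h4 : 1 / 8 * Q w z N U Γ ≤
        z * ∑ v ∈ Finset.univ \ Γ, phi w U Γ {v} * Q w z N U (Γ ∪ {v}) := by
      calc 1 / 8 * Q w z N U Γ
          ≤ (z * ((1 - τ) * ∑ v ∈ Finset.univ \ Γ, phi w U Γ {v})) * Q w z N U Γ :=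
            mul_le_mul_of_nonneg_right h3 hQ.le
        _ = z * ((∑ v ∈ Finset.univ \ Γ, phi w U Γ {v}) * ((1 - τ) * Q w z N U Γ)) := by ring
        _ ≤ _ := mul_le_mul_of_nonneg_left h2 H.z0
    calc Q w z N U Γ - z * ∑ v ∈ Finset.univ \ Γ, phi w U Γ {v} * Q w z N U (Γ ∪ {v})
        ≤ 7 / 8 * Q w z N U Γ := by linarith
      _ ≤ 7 / 8 * (7 / 8) ^ N := by linarith
      _ = _ := by rw [pow_succ]; ring

theorem Hyp.half {w : Finset V → ℝ} {z : ℝ} {M : ℕ} {τ : ℝ} (H : Hyp w z M τ) :
    Hyp w (z / 2) M τ := by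
  have hz := H.z0
  have hle : 4 * (M : ℝ) * (z / 2) ≤ 4 * M * z := by
    have : 0 ≤ (M : ℝ) * z := by positivity
    nlinarith
  refine ⟨H.w0, H.w1, by linarith, ?_, ?_, ?_, H.tau1, ?_⟩
  · have h1 := H.zn
    have h2 : 0 ≤ z * Fintype.card V := by positivity
    have h3 : z / 2 * (Fintype.card V : ℝ) = (z * Fintype.card V) / 2 := by ring
    rw [h3]; linarith
  · refine le_trans ?_ H.tau
    exact mul_le_mul_of_nonneg_right (by linarith) (Real.exp_pos _).le
  · exact hle.trans H.kap
  · intro Γ v hv hΓ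
    refine le_trans ?_ (H.sum Γ v hv hΓ)
    refine Finset.sum_le_sum fun T _ => ?_
    have h1 := H.w1 T
    refine mul_le_mul_of_nonneg_left ?_ (by linarith)
    exact pow_le_pow_left₀ (by positivity) hle _

/-- The measure: weight of the set `X`. -/
noncomputable def pm (w : Finset V → ℝ) (z : ℝ) (M : ℕ) (X : Finset V) : ℝ :=
  P w z M Finset.univ ∅ X

theorem pm_nonneg {w : Finset V → ℝ} {z : ℝ} {M : ℕ} {τ : ℝ} (H : Hyp w z M τ)
    (X : Finset V) : 0 ≤ pm w z M X :=
  P_nonneg H M _ _ _ (by simp)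

theorem pm_eq_zero (w : Finset V → ℝ) (z : ℝ) (M : ℕ) (X T : Finset V) (hT : T ⊆ X)
    (hT0 : T.Nonempty) (hw : w T = 0) : pm w z M X = 0 := by
  unfold pm P
  have : phi w Finset.univ ∅ X = 0 := by
    unfold phi
    refine Finset.prod_eq_zero (i := T) ?_ hw
    simp only [mem_filter, mem_univ, true_and, empty_union]
    refine ⟨hT, fun h => ?_⟩
    rw [Finset.subset_empty] at h
    exact hT0.ne_empty h
  rw [this]; ring

/-- sum over supersets as a sum over the complement -/
theorem sum_supersets (e : Finset V) (f : Finset V → ℝ) :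
    ∑ X ∈ (Finset.univ : Finset (Finset V)).filter (fun X => e ⊆ X), f X
      = ∑ Y ∈ (Finset.univ \ e).powerset, f (e ∪ Y) := by
  symm
  refine Finset.sum_bij' (fun Y _ => e ∪ Y) (fun X _ => X \ e) ?_ ?_ ?_ ?_ ?_
  · intro Y _
    simp only [mem_filter, mem_univ, true_and]
    exact Finset.subset_union_left
  · intro X _
    rw [Finset.mem_powerset]
    exact Finset.sdiff_subset_sdiff (Finset.subset_univ _) (Finset.Subset.refl _)
  · intro Y hY
    rw [Finset.mem_powerset] at hY
    have hd : Disjoint e Y := by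
      rw [Finset.disjoint_right]
      intro x hx
      simpa using hY hx
    exact Finset.union_sdiff_cancel_left hd
  · intro X hX
    simp only [mem_filter, mem_univ, true_and] at hX
    exact Finset.union_sdiff_of_subset hX
  · intro Y _; rfl

/-- correlation functions, with a weight `t ^ |X \ e|` -/
theorem sum_pm (w : Finset V → ℝ) (z t : ℝ) (M : ℕ) (e : Finset V) :
    ∑ X ∈ (Finset.univ : Finset (Finset V)).filter (fun X => e ⊆ X),
      t ^ (X \ e).card * pm w z M X
      = (M.descFactorial e.card : ℝ) * z ^ e.card * phi w Finset.univ ∅ e *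
        Q w ((1 - t) * z) (M - e.card) Finset.univ e := by
  rw [sum_supersets e (fun X => t ^ (X \ e).card * pm w z M X), ← sum_P, Finset.mul_sum]
  refine Finset.sum_congr rfl fun Y hY => ?_
  rw [Finset.mem_powerset] at hY
  have hd : Disjoint e Y := by
    rw [Finset.disjoint_right]
    intro x hx
    simpa using hY hx
  rw [Finset.union_sdiff_cancel_left hd]
  unfold pm
  rw [P_union _ _ _ _ _ _ _ hd, Finset.empty_union]
  ring

theorem sum_pm_one (w : Finset V → ℝ) (z : ℝ) (M : ℕ) (e : Finset V) :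
    ∑ X ∈ (Finset.univ : Finset (Finset V)).filter (fun X => e ⊆ X), pm w z M X
      = (M.descFactorial e.card : ℝ) * z ^ e.card * phi w Finset.univ ∅ e := by
  have h := sum_pm w z 1 M e
  simp only [one_pow, one_mul, sub_self, zero_mul, Q_at_zero, mul_one] at h
  exact h

/-- small sets have little weight -/
theorem sum_pm_small {w : Finset V → ℝ} {z : ℝ} {M : ℕ} {τ : ℝ} (H : Hyp w z M τ)
    (havg : ∀ Γ : Finset V, Γ.card ≤ M →
      1 / 8 ≤ z / 2 * ((1 - τ) * ∑ v ∈ Finset.univ \ Γ, phi w Finset.univ Γ {v}))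
    (e : Finset V) (he : e.card ≤ M) (q : ℕ) :
    ∑ X ∈ (Finset.univ : Finset (Finset V)).filter (fun X => e ⊆ X ∧ X.card < q), pm w z M X
      ≤ 2 ^ q * (7 / 8) ^ (M - e.card) *
        ((M.descFactorial e.card : ℝ) * z ^ e.card * phi w Finset.univ ∅ e) := by
  have h1 := sum_pm w z (1 / 2) M e
  have h2 : (1 - 1 / 2 : ℝ) * z = z / 2 := by ring
  rw [h2] at h1
  have h3 := Q_decay H.half Finset.univ havg (M - e.card) e (by omega)
  have hz := H.z0
  have hρ : 0 ≤ (M.descFactorial e.card : ℝ) * z ^ e.card * phi w Finset.univ ∅ e := by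
    have := phi_nonneg H.w0 Finset.univ ∅ e
    positivity
  calc ∑ X ∈ (Finset.univ : Finset (Finset V)).filter (fun X => e ⊆ X ∧ X.card < q), pm w z M X
      ≤ ∑ X ∈ (Finset.univ : Finset (Finset V)).filter (fun X => e ⊆ X ∧ X.card < q),
        2 ^ q * ((1 / 2) ^ (X \ e).card * pm w z M X) := by
        refine Finset.sum_le_sum fun X hX => ?_
        simp only [mem_filter, mem_univ, true_and] at hX
        have h4 : (1 : ℝ) ≤ 2 ^ q * (1 / 2) ^ (X \ e).card := by
          have h5 : (X \ e).card ≤ q := (Finset.card_le_card Finset.sdiff_subset).trans hX.2.le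
          obtain ⟨m, hm⟩ := Nat.exists_eq_add_of_le h5
          rw [hm, pow_add]
          have : (2 : ℝ) ^ (X \ e).card * (1 / 2) ^ (X \ e).card = 1 := by
            rw [← mul_pow]; norm_num
          have h6 : (1 : ℝ) ≤ 2 ^ m := one_le_pow₀ (by norm_num)
          calc (1 : ℝ) ≤ 2 ^ m := h6
            _ = (2 ^ (X \ e).card * (1 / 2) ^ (X \ e).card) * 2 ^ m := by rw [this]; ring
            _ = _ := by ring
        have h7 := pm_nonneg H X
        nlinarith
    _ ≤ ∑ X ∈ (Finset.univ : Finset (Finset V)).filter (fun X => e ⊆ X),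
        2 ^ q * ((1 / 2) ^ (X \ e).card * pm w z M X) := by
        refine Finset.sum_le_sum_of_subset_of_nonneg ?_ ?_
        · intro X; simp only [mem_filter, mem_univ, true_and]; tauto
        · intro X _ _
          have := pm_nonneg H X
          positivity
    _ = 2 ^ q * ((M.descFactorial e.card : ℝ) * z ^ e.card * phi w Finset.univ ∅ e *
        Q w (z / 2) (M - e.card) Finset.univ e) := by
        rw [← Finset.mul_sum, h1]
    _ ≤ 2 ^ q * ((M.descFactorial e.card : ℝ) * z ^ e.card * phi w Finset.univ ∅ e *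
        (7 / 8) ^ (M - e.card)) := by
        gcongr
    _ = _ := by ring

end Pool.Agent.Lib_helper81.FD
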