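import Pool.Agent.Lib_helper81.FD.Core

set_option autoImplicit false

namespace Pool.Agent.Lib_helper81.FD

open Finset

variable {V : Type*} [Fintype V] [DecidableEq V]

theorem descFactorial_succ_split (N k : ℕ) :
    ((N + 1).descFactorial k : ℝ) = N.descFactorial k + k * N.descFactorial (k - 1) := by
  cases k with
  | zero => simp
  | succ k =>
    rw [Nat.succ_descFactorial_succ, Nat.descFactorial_succ, Nat.add_sub_cancel]
    by_cases h : k ≤ N
    · push_cast [Nat.cast_sub h]
      ring
    · have : N.descFactorial k = 0 := Nat.descFactorial_eq_zero_iff_lt.mpr (by omega)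
      simp [this]

/-- basic recursion -/
theorem Q_succ (w : Finset V → ℝ) (z : ℝ) (N : ℕ) (U : Finset (Finset V)) (Γ : Finset V) :
    Q w z (N + 1) U Γ = Q w z N U Γ -
      z * ∑ v ∈ Finset.univ \ Γ, phi w U Γ {v} * Q w z N U (Γ ∪ {v}) := by
  have key : ∀ v ∈ Finset.univ \ Γ,
      ∑ Y ∈ (Finset.univ \ Γ).powerset.filter (fun Y => v ∈ Y),
        (N.descFactorial (Y.card - 1) : ℝ) * (-z) ^ Y.card * phi w U Γ Y
      = -z * (phi w U Γ {v} * Q w z N U (Γ ∪ {v})) := by
    intro v hv
    have hd : Disjoint ({v} : Finset V) Γ := by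
      simp only [mem_sdiff, mem_univ, true_and] at hv
      simpa using hv
    have h := sum_superset w z (N + 1) U Γ {v} hd
    have h1 : ∑ Y ∈ (Finset.univ \ Γ).powerset.filter (fun Y => ({v} : Finset V) ⊆ Y),
        ((N + 1).descFactorial Y.card : ℝ) * (-z) ^ Y.card * phi w U Γ Y
        = ((N : ℝ) + 1) * ∑ Y ∈ (Finset.univ \ Γ).powerset.filter (fun Y => v ∈ Y),
        (N.descFactorial (Y.card - 1) : ℝ) * (-z) ^ Y.card * phi w U Γ Y := by
      rw [Finset.mul_sum]
      refine Finset.sum_congr (by simp [Finset.singleton_subset_iff]) ?_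
      intro Y hY
      have hY' : v ∈ Y := (Finset.mem_filter.mp hY).2
      have hpos : 0 < Y.card := Finset.card_pos.mpr ⟨v, hY'⟩
      obtain ⟨k, hk⟩ := Nat.exists_eq_succ_of_ne_zero hpos.ne'
      rw [hk, Nat.succ_descFactorial_succ]
      push_cast
      simp only [Nat.succ_eq_add_one]
      ring
    rw [h1] at h
    simp only [card_singleton, Nat.descFactorial_one, pow_one, Nat.add_sub_cancel] at h
    have hN : ((N : ℝ) + 1) ≠ 0 := by positivity
    push_cast at h
    have h2 : ((N : ℝ) + 1) * ∑ Y ∈ (Finset.univ \ Γ).powerset.filter (fun Y => v ∈ Y),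
        (N.descFactorial (Y.card - 1) : ℝ) * (-z) ^ Y.card * phi w U Γ Y
        = ((N : ℝ) + 1) * (-z * (phi w U Γ {v} * Q w z N U (Γ ∪ {v}))) := by
      rw [h]; ring
    exact mul_left_cancel₀ hN h2
  have hswap : ∑ Y ∈ (Finset.univ \ Γ).powerset,
        (Y.card : ℝ) * N.descFactorial (Y.card - 1) * (-z) ^ Y.card * phi w U Γ Y
      = ∑ v ∈ Finset.univ \ Γ, ∑ Y ∈ (Finset.univ \ Γ).powerset.filter (fun Y => v ∈ Y),
        (N.descFactorial (Y.card - 1) : ℝ) * (-z) ^ Y.card * phi w U Γ Y := by
    have h1 : ∀ Y ∈ (Finset.univ \ Γ).powerset,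
        (Y.card : ℝ) * N.descFactorial (Y.card - 1) * (-z) ^ Y.card * phi w U Γ Y
        = ∑ v ∈ Y, (N.descFactorial (Y.card - 1) : ℝ) * (-z) ^ Y.card * phi w U Γ Y := by
      intro Y _
      rw [Finset.sum_const, nsmul_eq_mul]
      ring
    rw [Finset.sum_congr rfl h1]
    refine Finset.sum_comm' ?_
    intro Y v
    simp only [mem_powerset, mem_filter, mem_sdiff, mem_univ, true_and]
    constructor
    · rintro ⟨hY, hv⟩
      exact ⟨⟨hY, hv⟩, by simpa using hY hv⟩
    · rintro ⟨⟨hY, hv⟩, _⟩
      exact ⟨hY, hv⟩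
  have hsplit : Q w z (N + 1) U Γ = Q w z N U Γ + ∑ Y ∈ (Finset.univ \ Γ).powerset,
        (Y.card : ℝ) * N.descFactorial (Y.card - 1) * (-z) ^ Y.card * phi w U Γ Y := by
    unfold Q
    rw [← Finset.sum_add_distrib]
    refine Finset.sum_congr rfl fun Y _ => ?_
    rw [descFactorial_succ_split]
    ring
  rw [hsplit, hswap, Finset.sum_congr rfl key, ← Finset.mul_sum]
  ring

theorem Q_delete (w : Finset V → ℝ) (z : ℝ) (N : ℕ) (U : Finset (Finset V)) (Γ : Finset V)
    (v : V) (hv : v ∉ Γ) :
    Q w z N U Γ = Q w z N (U.filter (fun T => v ∉ T)) (Γ ∪ {v}) -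
      (N : ℝ) * z * phi w U Γ {v} * Q w z (N - 1) U (Γ ∪ {v}) := by
  have hd : Disjoint ({v} : Finset V) Γ := by simpa using hv
  have h := sum_superset w z N U Γ {v} hd
  have hsplit : Q w z N U Γ =
      ∑ Y ∈ (Finset.univ \ Γ).powerset.filter (fun Y => ({v} : Finset V) ⊆ Y),
        (N.descFactorial Y.card : ℝ) * (-z) ^ Y.card * phi w U Γ Y +
      ∑ Y ∈ (Finset.univ \ Γ).powerset.filter (fun Y => ¬ ({v} : Finset V) ⊆ Y),
        (N.descFactorial Y.card : ℝ) * (-z) ^ Y.card * phi w U Γ Y := by
    unfold Q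
    rw [Finset.sum_filter_add_sum_filter_not]
  have h2 : ∑ Y ∈ (Finset.univ \ Γ).powerset.filter (fun Y => ¬ ({v} : Finset V) ⊆ Y),
        (N.descFactorial Y.card : ℝ) * (-z) ^ Y.card * phi w U Γ Y
      = Q w z N (U.filter (fun T => v ∉ T)) (Γ ∪ {v}) := by
    unfold Q
    refine Finset.sum_congr ?_ ?_
    · ext Y
      simp only [mem_filter, mem_powerset, singleton_subset_iff]
      constructor
      · rintro ⟨h1, h2⟩ x hx
        have := h1 hx
        simp only [mem_sdiff, mem_univ, true_and, mem_union, mem_singleton, not_or] at this ⊢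
        exact ⟨this, fun h => h2 (h ▸ hx)⟩
      · intro h1
        refine ⟨fun x hx => ?_, fun h => ?_⟩
        · have := h1 hx
          simp only [mem_sdiff, mem_univ, true_and, mem_union, mem_singleton, not_or] at this ⊢
          exact this.1
        · have := h1 h
          simp at this
    · intro Y hY
      simp only [mem_powerset] at hY
      have hvY : v ∉ Y := by
        intro h
        have := hY h
        simp at this
      congr 1
      unfold phi
      refine Finset.prod_congr ?_ (fun _ _ => rfl)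
      ext T
      simp only [mem_filter]
      constructor
      · rintro ⟨hT, h1, h2⟩
        have hvT : v ∉ T := by
          intro hvT
          rcases Finset.mem_union.mp (h1 hvT) with h | h
          · exact hv h
          · exact hvY h
        refine ⟨⟨hT, hvT⟩, h1.trans ?_, fun h => h2 fun x hx => ?_⟩
        · intro x hx
          simp only [mem_union, mem_singleton] at hx ⊢
          tauto
        · rcases Finset.mem_union.mp (h hx) with h' | h'
          · exact h'
          · exact absurd ((Finset.mem_singleton.mp h') ▸ hx) hvT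
      · rintro ⟨⟨hT, hvT⟩, h1, h2⟩
        refine ⟨hT, fun x hx => ?_, fun h => h2 (h.trans Finset.subset_union_left)⟩
        have := h1 hx
        simp only [mem_union, mem_singleton] at this ⊢
        rcases this with (h | h) | h
        · exact Or.inl h
        · exact absurd (h ▸ hx) hvT
        · exact Or.inr h
  rw [hsplit, h, h2]
  simp only [card_singleton, Nat.descFactorial_one, pow_one]
  ring

theorem Q_insert_of_subset (w : Finset V → ℝ) (z : ℝ) (N : ℕ) (U : Finset (Finset V))
    (Γ T : Finset V) (hT : T ⊆ Γ) : Q w z N (insert T U) Γ = Q w z N U Γ := by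
  unfold Q phi
  refine Finset.sum_congr rfl fun Y _ => ?_
  congr 1
  rw [Finset.filter_insert, if_neg (by tauto)]

theorem Q_insert (w : Finset V → ℝ) (z : ℝ) (N : ℕ) (U : Finset (Finset V))
    (Γ T : Finset V) (hT : ¬ T ⊆ Γ) (hTU : T ∉ U) :
    Q w z N (insert T U) Γ = Q w z N U Γ - (1 - w T) *
      ((N.descFactorial (T \ Γ).card : ℝ) * (-z) ^ (T \ Γ).card * phi w U Γ (T \ Γ) *
        Q w z (N - (T \ Γ).card) U (Γ ∪ (T \ Γ))) := by
  have hd : Disjoint (T \ Γ) Γ := Finset.sdiff_disjoint
  rw [← sum_superset w z N U Γ (T \ Γ) hd]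
  unfold Q
  rw [← Finset.sum_filter_add_sum_filter_not (Finset.univ \ Γ).powerset (fun Y => T \ Γ ⊆ Y)
      (fun Y => (N.descFactorial Y.card : ℝ) * (-z) ^ Y.card * phi w (insert T U) Γ Y),
    ← Finset.sum_filter_add_sum_filter_not (Finset.univ \ Γ).powerset (fun Y => T \ Γ ⊆ Y)
      (fun Y => (N.descFactorial Y.card : ℝ) * (-z) ^ Y.card * phi w U Γ Y)]
  have h1 : ∀ Y ∈ (Finset.univ \ Γ).powerset.filter (fun Y => T \ Γ ⊆ Y),
      (N.descFactorial Y.card : ℝ) * (-z) ^ Y.card * phi w (insert T U) Γ Y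
      = w T * ((N.descFactorial Y.card : ℝ) * (-z) ^ Y.card * phi w U Γ Y) := by
    intro Y hY
    have hY' := (Finset.mem_filter.mp hY).2
    have : phi w (insert T U) Γ Y = w T * phi w U Γ Y := by
      unfold phi
      have hsub : T ⊆ Γ ∪ Y := by
        intro x hx
        by_cases h : x ∈ Γ
        · exact Finset.mem_union_left _ h
        · exact Finset.mem_union_right _ (hY' (Finset.mem_sdiff.mpr ⟨hx, h⟩))
      rw [Finset.filter_insert, if_pos ⟨hsub, hT⟩, Finset.prod_insert]
      simp [hTU]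
    rw [this]; ring
  have h2 : ∀ Y ∈ (Finset.univ \ Γ).powerset.filter (fun Y => ¬ T \ Γ ⊆ Y),
      (N.descFactorial Y.card : ℝ) * (-z) ^ Y.card * phi w (insert T U) Γ Y
      = ((N.descFactorial Y.card : ℝ) * (-z) ^ Y.card * phi w U Γ Y) := by
    intro Y hY
    have hY' := (Finset.mem_filter.mp hY).2
    have : phi w (insert T U) Γ Y = phi w U Γ Y := by
      unfold phi
      rw [Finset.filter_insert, if_neg]
      rintro ⟨h, _⟩
      apply hY'
      intro x hx
      simp only [mem_sdiff] at hx
      rcases Finset.mem_union.mp (h hx.1) with h' | h'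
      · exact absurd h' hx.2
      · exact h'
    rw [this]
  rw [Finset.sum_congr rfl h1, Finset.sum_congr rfl h2, ← Finset.mul_sum]
  ring

end Pool.Agent.Lib_helper81.FD
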