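import Pool.Agent.Lib_helper81.FD.Bounds

set_option autoImplicit false

/-!
# Verification of the hypotheses for an `r`-graph of large minimum codegree
-/

namespace Pool.Agent.Lib_helper81.FD

open Finset

variable {V : Type*} [Fintype V] [DecidableEq V]

/-- sums over sets, by choosing the last element -/
theorem sum_erase_le (𝒯 𝒮 : Finset (Finset V)) (F : Finset V → ℝ) (G : Finset V → V → ℝ)
    (hG : ∀ S ∈ 𝒮, ∀ x ∉ S, 0 ≤ G S x)
    (h : ∀ T ∈ 𝒯, ∃ x ∈ T, T.erase x ∈ 𝒮 ∧ F T ≤ G (T.erase x) x) :
    ∑ T ∈ 𝒯, F T ≤ ∑ S ∈ 𝒮, ∑ x ∈ Finset.univ \ S, G S x := by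
  classical
  rcases isEmpty_or_nonempty V with hV | hV
  · have : 𝒯 = ∅ := by
      rw [Finset.eq_empty_iff_forall_notMem]
      intro T hT
      obtain ⟨x, _⟩ := h T hT
      exact hV.elim x
    rw [this, Finset.sum_empty]
    refine Finset.sum_nonneg fun S hS => Finset.sum_nonneg fun x _ => hV.elim x
  choose! c hc1 hc2 hc3 using h
  have hinj : Set.InjOn (fun T : Finset V => (⟨T.erase (c T), c T⟩ : Σ _ : Finset V, V)) 𝒯 := by
    intro T hT T' hT' heq
    simp only [Sigma.mk.injEq] at heq
    obtain ⟨h1, h2⟩ := heq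
    have h2 := eq_of_heq h2
    rw [← Finset.insert_erase (hc1 T hT), ← Finset.insert_erase (hc1 T' hT'), h1, h2]
  calc ∑ T ∈ 𝒯, F T ≤ ∑ T ∈ 𝒯, G (T.erase (c T)) (c T) :=
        Finset.sum_le_sum fun T hT => hc3 T hT
    _ = ∑ p ∈ 𝒯.image (fun T : Finset V => (⟨T.erase (c T), c T⟩ : Σ _ : Finset V, V)),
          G p.1 p.2 := by
        rw [Finset.sum_image hinj]
    _ ≤ ∑ p ∈ 𝒮.sigma (fun S => Finset.univ \ S), G p.1 p.2 := by
        refine Finset.sum_le_sum_of_subset_of_nonneg ?_ ?_
        · intro p hp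
          obtain ⟨T, hT, rfl⟩ := Finset.mem_image.mp hp
          simp only [mem_sigma, mem_sdiff, mem_univ, true_and]
          exact ⟨hc2 T hT, Finset.notMem_erase _ _⟩
        · rintro ⟨S, x⟩ hp _
          simp only [mem_sigma, mem_sdiff, mem_univ, true_and] at hp
          exact hG S hp.1 x hp.2
    _ = ∑ S ∈ 𝒮, ∑ x ∈ Finset.univ \ S, G S x := by
        rw [Finset.sum_sigma]

/-- weights of all finite sets -/
noncomputable def wt (E : Finset (Finset V)) (r : ℕ) (ε : ℝ) (y : Finset V → ℝ)
    (T : Finset V) : ℝ :=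
  if T.card = r then (if T ∈ E then (if 0 < y T then 1 - ε else 1) else 0) else 1

theorem wt_nonneg (E : Finset (Finset V)) (r : ℕ) {ε : ℝ} (h1 : ε ≤ 1) (y : Finset V → ℝ)
    (T : Finset V) : 0 ≤ wt E r ε y T := by
  unfold wt
  split_ifs <;> linarith

theorem wt_le_one (E : Finset (Finset V)) (r : ℕ) {ε : ℝ} (h0 : 0 ≤ ε) (y : Finset V → ℝ)
    (T : Finset V) : wt E r ε y T ≤ 1 := by
  unfold wt
  split_ifs <;> linarith

/-- the number of non-neighbours of an `(r-1)`-set -/
theorem link_sum (E : Finset (Finset V)) (r : ℕ) {ε δ : ℝ} (h0 : 0 ≤ ε)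
    (y : Finset V → ℝ) (hE : ∀ e ∈ E, e.card = r) (S : Finset V) (hS : S.card + 1 = r)
    (hcod : (1 - δ) * (Fintype.card V : ℝ) ≤ ((E.filter (fun e => S ⊆ e)).card : ℝ)) :
    ∑ x ∈ Finset.univ \ S, (1 - wt E r ε y (insert x S)) ≤ (δ + ε) * Fintype.card V := by
  have h1 : ∀ x ∈ Finset.univ \ S, 1 - wt E r ε y (insert x S) ≤
      ε + (if insert x S ∈ E then 0 else 1) := by
    intro x hx
    have hx' : x ∉ S := by simpa using hx
    unfold wt
    rw [if_pos (by rw [Finset.card_insert_of_notMem hx']; exact hS)]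
    split_ifs <;> linarith
  have h2 : (E.filter (fun e => S ⊆ e)).card ≤
      ((Finset.univ \ S).filter (fun x => insert x S ∈ E)).card := by
    calc (E.filter (fun e => S ⊆ e)).card ≤
        (((Finset.univ \ S).filter (fun x => insert x S ∈ E)).image
          (fun x => insert x S)).card := by
          refine Finset.card_le_card ?_
          intro e he
          simp only [mem_filter] at he
          obtain ⟨a, ha, hae⟩ := (Finset.exists_eq_insert_iff (s := S) (t := e)).mpr
            ⟨he.2, by rw [hS, hE e he.1]⟩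
          simp only [mem_image, mem_filter, mem_sdiff, mem_univ, true_and]
          exact ⟨a, ⟨ha, by rw [hae]; exact he.1⟩, hae⟩
      _ ≤ _ := Finset.card_image_le
  have h3 : ((Finset.univ \ S).card : ℝ) ≤ Fintype.card V := by
    exact_mod_cast Finset.card_le_univ _
  have h4 : ∑ x ∈ Finset.univ \ S, (if insert x S ∈ E then (0 : ℝ) else 1)
      = ((Finset.univ \ S).card : ℝ) -
        ((Finset.univ \ S).filter (fun x => insert x S ∈ E)).card := by
    have : ∀ x ∈ Finset.univ \ S, (if insert x S ∈ E then (0 : ℝ) else 1)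
        = 1 - (if insert x S ∈ E then (1 : ℝ) else 0) := by
      intro x _
      split_ifs <;> norm_num
    rw [Finset.sum_congr rfl this, Finset.sum_sub_distrib, Finset.sum_boole]
    simp
  have h2' : ((E.filter (fun e => S ⊆ e)).card : ℝ) ≤
      ((Finset.univ \ S).filter (fun x => insert x S ∈ E)).card := by exact_mod_cast h2
  calc ∑ x ∈ Finset.univ \ S, (1 - wt E r ε y (insert x S))
      ≤ ∑ x ∈ Finset.univ \ S, (ε + (if insert x S ∈ E then 0 else 1)) :=
        Finset.sum_le_sum h1
    _ = ((Finset.univ \ S).card : ℝ) * ε + (((Finset.univ \ S).card : ℝ) -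
        ((Finset.univ \ S).filter (fun x => insert x S ∈ E)).card) := by
        rw [Finset.sum_add_distrib, h4, Finset.sum_const, nsmul_eq_mul]
    _ ≤ (δ + ε) * Fintype.card V := by nlinarith

/-- the sum over the sets containing a given `v ∈ Γ` -/
theorem sum_kappa (Γ : Finset V) (v : V) (hv : v ∈ Γ) {κ : ℝ} (hκ0 : 0 ≤ κ) (k : ℕ) :
    ∑ S ∈ (Finset.univ : Finset (Finset V)).filter (fun S => v ∈ S ∧ S.card = k + 1),
      κ ^ (S \ Γ).card ≤ ((Γ.card : ℝ) + κ * Fintype.card V) ^ k := by
  induction k with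
  | zero =>
    have : (Finset.univ : Finset (Finset V)).filter (fun S => v ∈ S ∧ S.card = 0 + 1) = {{v}} := by
      ext S
      simp only [mem_filter, mem_univ, true_and, zero_add, mem_singleton]
      constructor
      · rintro ⟨h1, h2⟩
        obtain ⟨a, rfl⟩ := Finset.card_eq_one.mp h2
        rw [Finset.mem_singleton.mp h1]
      · rintro rfl; simp
    rw [this, Finset.sum_singleton]
    have h2 : ({v} : Finset V) \ Γ = ∅ := by
      rw [Finset.sdiff_eq_empty_iff_subset]; simpa using hv
    rw [h2]; simp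
  | succ k ih =>
    have hω : ∑ x : V, (if x ∈ Γ then (1 : ℝ) else κ) ≤ (Γ.card : ℝ) + κ * Fintype.card V := by
      calc ∑ x : V, (if x ∈ Γ then (1 : ℝ) else κ)
          ≤ ∑ x : V, ((if x ∈ Γ then (1 : ℝ) else 0) + κ) := by
            refine Finset.sum_le_sum fun x _ => ?_
            split_ifs <;> linarith
        _ = _ := by
            rw [Finset.sum_add_distrib, Finset.sum_boole, Finset.sum_const]
            simp [mul_comm]
    have h1 := sum_erase_le
      ((Finset.univ : Finset (Finset V)).filter (fun S => v ∈ S ∧ S.card = k + 1 + 1))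
      ((Finset.univ : Finset (Finset V)).filter (fun S => v ∈ S ∧ S.card = k + 1))
      (fun S => κ ^ (S \ Γ).card)
      (fun S x => (if x ∈ Γ then (1 : ℝ) else κ) * κ ^ (S \ Γ).card)
      (by intro S _ x _; split_ifs <;> positivity)
      (by
        intro T hT
        simp only [mem_filter, mem_univ, true_and] at hT
        have : 1 < T.card := by omega
        obtain ⟨x, hx, hxv⟩ := Finset.exists_mem_ne this v
        refine ⟨x, hx, ?_, ?_⟩
        · simp only [mem_filter, mem_univ, true_and]
          refine ⟨Finset.mem_erase.mpr ⟨hxv.symm, hT.1⟩, ?_⟩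
          rw [Finset.card_erase_of_mem hx]; omega
        · by_cases hxΓ : x ∈ Γ
          · rw [if_pos hxΓ, one_mul]
            have : T.erase x \ Γ = T \ Γ := by
              ext a; simp only [mem_sdiff, mem_erase]
              constructor
              · rintro ⟨⟨_, h1⟩, h2⟩; exact ⟨h1, h2⟩
              · rintro ⟨h1, h2⟩
                exact ⟨⟨fun h => h2 (h ▸ hxΓ), h1⟩, h2⟩
            rw [this]
          · rw [if_neg hxΓ]
            have : T \ Γ = insert x (T.erase x \ Γ) := by
              ext a; simp only [mem_sdiff, mem_erase, mem_insert]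
              constructor
              · rintro ⟨h1, h2⟩
                by_cases h : a = x
                · exact Or.inl h
                · exact Or.inr ⟨⟨h, h1⟩, h2⟩
              · rintro (rfl | ⟨⟨_, h1⟩, h2⟩)
                · exact ⟨hx, hxΓ⟩
                · exact ⟨h1, h2⟩
            rw [this, Finset.card_insert_of_notMem (by simp), pow_succ, mul_comm])
    refine h1.trans ?_
    have h2 : ∀ S ∈ (Finset.univ : Finset (Finset V)).filter (fun S => v ∈ S ∧ S.card = k + 1),
        ∑ x ∈ Finset.univ \ S, (if x ∈ Γ then (1 : ℝ) else κ) * κ ^ (S \ Γ).card ≤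
        ((Γ.card : ℝ) + κ * Fintype.card V) * κ ^ (S \ Γ).card := by
      intro S _
      rw [← Finset.sum_mul]
      refine mul_le_mul_of_nonneg_right (le_trans ?_ hω) (by positivity)
      refine Finset.sum_le_sum_of_subset_of_nonneg (Finset.subset_univ _) ?_
      intro x _ _
      split_ifs <;> linarith
    refine (Finset.sum_le_sum h2).trans ?_
    rw [← Finset.mul_sum, pow_succ, mul_comm]
    exact mul_le_mul_of_nonneg_right ih (by positivity)

/-- item: summed cost through a vertex of `Γ` -/
theorem hyp_sum (E : Finset (Finset V)) (k : ℕ) {ε δ κ : ℝ} (h0 : 0 ≤ ε) (h1 : ε ≤ 1)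
    (hδ : 0 ≤ δ) (y : Finset V → ℝ) (hE : ∀ e ∈ E, e.card = k + 2)
    (hcod : ∀ S : Finset V, S.card = k + 1 →
      (1 - δ) * (Fintype.card V : ℝ) ≤ ((E.filter (fun e => S ⊆ e)).card : ℝ))
    (hκ0 : 0 ≤ κ) (Γ : Finset V) (v : V) (hv : v ∈ Γ) :
    ∑ T ∈ (Finset.univ : Finset (Finset V)).filter (fun T => v ∈ T ∧ ¬ T ⊆ Γ),
      (1 - wt E (k + 2) ε y T) * κ ^ (T \ Γ).card ≤
      κ * ((δ + ε) * Fintype.card V) * ((Γ.card : ℝ) + κ * Fintype.card V) ^ k := by
  have hw0 := wt_nonneg E (k + 2) h1 y
  have hw1 := wt_le_one E (k + 2) h0 y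
  -- restrict to card = k + 2
  have hres : ∑ T ∈ (Finset.univ : Finset (Finset V)).filter (fun T => v ∈ T ∧ ¬ T ⊆ Γ),
      (1 - wt E (k + 2) ε y T) * κ ^ (T \ Γ).card
      = ∑ T ∈ (Finset.univ : Finset (Finset V)).filter
        (fun T => (v ∈ T ∧ ¬ T ⊆ Γ) ∧ T.card = k + 2),
      (1 - wt E (k + 2) ε y T) * κ ^ (T \ Γ).card := by
    symm
    refine Finset.sum_subset ?_ ?_
    · intro T; simp only [mem_filter, mem_univ, true_and]; tauto
    · intro T hT hT'
      simp only [mem_filter, mem_univ, true_and] at hT hT'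
      have : T.card ≠ k + 2 := fun h => hT' ⟨hT, h⟩
      unfold wt
      rw [if_neg this]; ring
  rw [hres]
  have h2 := sum_erase_le
      ((Finset.univ : Finset (Finset V)).filter (fun T => (v ∈ T ∧ ¬ T ⊆ Γ) ∧ T.card = k + 2))
      ((Finset.univ : Finset (Finset V)).filter (fun S => v ∈ S ∧ S.card = k + 1))
      (fun T => (1 - wt E (k + 2) ε y T) * κ ^ (T \ Γ).card)
      (fun S x => (1 - wt E (k + 2) ε y (insert x S)) * (κ * κ ^ (S \ Γ).card))
      (by
        intro S _ x _
        have := hw1 (insert x S)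
        have : 0 ≤ 1 - wt E (k + 2) ε y (insert x S) := by linarith
        positivity)
      (by
        intro T hT
        simp only [mem_filter, mem_univ, true_and] at hT
        obtain ⟨x, hxT, hxΓ⟩ := Finset.not_subset.mp hT.1.2
        refine ⟨x, hxT, ?_, ?_⟩
        · simp only [mem_filter, mem_univ, true_and]
          refine ⟨Finset.mem_erase.mpr ⟨fun h => hxΓ (h ▸ hv), hT.1.1⟩, ?_⟩
          rw [Finset.card_erase_of_mem hxT]; omega
        · rw [Finset.insert_erase hxT]
          have : T \ Γ = insert x (T.erase x \ Γ) := by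
              ext a; simp only [mem_sdiff, mem_erase, mem_insert]
              constructor
              · rintro ⟨h1, h2⟩
                by_cases h : a = x
                · exact Or.inl h
                · exact Or.inr ⟨⟨h, h1⟩, h2⟩
              · rintro (rfl | ⟨⟨_, h1⟩, h2⟩)
                · exact ⟨hxT, hxΓ⟩
                · exact ⟨h1, h2⟩
          rw [this, Finset.card_insert_of_notMem (by simp), pow_succ, mul_comm κ])
  refine h2.trans ?_
  have h3 : ∀ S ∈ (Finset.univ : Finset (Finset V)).filter (fun S => v ∈ S ∧ S.card = k + 1),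
      ∑ x ∈ Finset.univ \ S, (1 - wt E (k + 2) ε y (insert x S)) * (κ * κ ^ (S \ Γ).card) ≤
      ((δ + ε) * Fintype.card V) * (κ * κ ^ (S \ Γ).card) := by
    intro S hS
    simp only [mem_filter, mem_univ, true_and] at hS
    rw [← Finset.sum_mul]
    refine mul_le_mul_of_nonneg_right ?_ (by positivity)
    exact link_sum E (k + 2) h0 y hE S (by omega) (hcod S hS.2)
  refine (Finset.sum_le_sum h3).trans ?_
  have h4 : ∑ S ∈ (Finset.univ : Finset (Finset V)).filter (fun S => v ∈ S ∧ S.card = k + 1),
      ((δ + ε) * Fintype.card V) * (κ * κ ^ (S \ Γ).card)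
      = κ * ((δ + ε) * Fintype.card V) *
        ∑ S ∈ (Finset.univ : Finset (Finset V)).filter (fun S => v ∈ S ∧ S.card = k + 1),
          κ ^ (S \ Γ).card := by
    rw [Finset.mul_sum]
    refine Finset.sum_congr rfl fun S _ => ?_
    ring
  rw [h4]
  exact mul_le_mul_of_nonneg_left (sum_kappa Γ v hv hκ0 k) (by positivity)

/-- item: the average of `phi Γ {v}` -/
theorem hyp_avg (E : Finset (Finset V)) (k : ℕ) {ε δ : ℝ} (h0 : 0 ≤ ε) (h1 : ε ≤ 1)
    (hδ : 0 ≤ δ) (y : Finset V → ℝ) (hE : ∀ e ∈ E, e.card = k + 2)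
    (hcod : ∀ S : Finset V, S.card = k + 1 →
      (1 - δ) * (Fintype.card V : ℝ) ≤ ((E.filter (fun e => S ⊆ e)).card : ℝ))
    (U : Finset (Finset V)) (Γ : Finset V) :
    (Fintype.card V : ℝ) - Γ.card - (Γ.card : ℝ) ^ (k + 1) * ((δ + ε) * Fintype.card V) ≤
      ∑ v ∈ Finset.univ \ Γ, phi (wt E (k + 2) ε y) U Γ {v} := by
  have hw0 := wt_nonneg E (k + 2) h1 y
  have hw1 := wt_le_one E (k + 2) h0 y
  have hkey : ∀ v ∈ Finset.univ \ Γ, 1 - ∑ S ∈ Γ.powersetCard (k + 1),
      (1 - wt E (k + 2) ε y (insert v S)) ≤ phi (wt E (k + 2) ε y) U Γ {v} := by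
    intro v hv
    have hv' : v ∉ Γ := by simpa using hv
    have hb := one_sub_sum_le_prod (U.filter (fun T => T ⊆ Γ ∪ {v} ∧ ¬ T ⊆ Γ))
      (fun T => 1 - wt E (k + 2) ε y T) (fun T _ => by have := hw1 T; linarith)
      (fun T _ => by have := hw0 T; linarith)
    simp only [sub_sub_cancel] at hb
    refine le_trans ?_ hb
    have : ∑ T ∈ U.filter (fun T => T ⊆ Γ ∪ {v} ∧ ¬ T ⊆ Γ), (1 - wt E (k + 2) ε y T) ≤
        ∑ S ∈ Γ.powersetCard (k + 1), (1 - wt E (k + 2) ε y (insert v S)) := by
      have hinj : Set.InjOn (fun S : Finset V => insert v S) (Γ.powersetCard (k + 1)) := by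
        intro S hS S' hS' heq
        simp only [Finset.mem_coe, mem_powersetCard] at hS hS'
        have h1 : v ∉ S := fun h => hv' (hS.1 h)
        have h2 : v ∉ S' := fun h => hv' (hS'.1 h)
        have : (insert v S).erase v = (insert v S').erase v := by
          simp only at heq; rw [heq]
        rwa [Finset.erase_insert h1, Finset.erase_insert h2] at this
      calc ∑ T ∈ U.filter (fun T => T ⊆ Γ ∪ {v} ∧ ¬ T ⊆ Γ), (1 - wt E (k + 2) ε y T)
          = ∑ T ∈ (U.filter (fun T => T ⊆ Γ ∪ {v} ∧ ¬ T ⊆ Γ)).filter (fun T => T.card = k + 2),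
            (1 - wt E (k + 2) ε y T) := by
            symm
            refine Finset.sum_subset (Finset.filter_subset _ _) ?_
            intro T hT hT'
            have : T.card ≠ k + 2 := fun h => hT' (Finset.mem_filter.mpr ⟨hT, h⟩)
            unfold wt
            rw [if_neg this]; ring
        _ ≤ ∑ T ∈ (Γ.powersetCard (k + 1)).image (fun S => insert v S),
            (1 - wt E (k + 2) ε y T) := by
            refine Finset.sum_le_sum_of_subset_of_nonneg ?_ ?_
            · intro T hT
              simp only [mem_filter] at hT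
              obtain ⟨⟨_, hT1, hT2⟩, hT3⟩ := hT
              have hvT : v ∈ T := by
                by_contra hvT
                apply hT2
                intro x hx
                rcases Finset.mem_union.mp (hT1 hx) with h | h
                · exact h
                · exact absurd ((Finset.mem_singleton.mp h) ▸ hx) hvT
              refine Finset.mem_image.mpr ⟨T.erase v, ?_, Finset.insert_erase hvT⟩
              rw [mem_powersetCard]
              constructor
              · intro x hx
                simp only [mem_erase] at hx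
                rcases Finset.mem_union.mp (hT1 hx.2) with h | h
                · exact h
                · exact absurd (Finset.mem_singleton.mp h) hx.1
              · rw [Finset.card_erase_of_mem hvT]; omega
            · intro T _ _
              have := hw1 T; linarith
        _ = _ := by
            rw [Finset.sum_image hinj]
    linarith
  have h2 : ∑ v ∈ Finset.univ \ Γ, ∑ S ∈ Γ.powersetCard (k + 1),
      (1 - wt E (k + 2) ε y (insert v S)) ≤
      (Γ.card : ℝ) ^ (k + 1) * ((δ + ε) * Fintype.card V) := by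
    rw [Finset.sum_comm]
    have h3 : ∀ S ∈ Γ.powersetCard (k + 1), ∑ v ∈ Finset.univ \ Γ,
        (1 - wt E (k + 2) ε y (insert v S)) ≤ (δ + ε) * Fintype.card V := by
      intro S hS
      rw [mem_powersetCard] at hS
      refine le_trans ?_ (link_sum E (k + 2) h0 y hE S (by omega) (hcod S hS.2))
      refine Finset.sum_le_sum_of_subset_of_nonneg ?_ ?_
      · exact Finset.sdiff_subset_sdiff (Finset.Subset.refl _) hS.1
      · intro x _ _
        have := hw1 (insert x S); linarith
    refine (Finset.sum_le_sum h3).trans ?_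
    rw [Finset.sum_const, nsmul_eq_mul, Finset.card_powersetCard]
    refine mul_le_mul_of_nonneg_right ?_ (by positivity)
    calc ((Γ.card.choose (k + 1) : ℕ) : ℝ) ≤ ((Γ.card ^ (k + 1) : ℕ) : ℝ) := by
          exact_mod_cast Nat.choose_le_pow Γ.card (k + 1)
      _ = _ := by push_cast; ring
  calc (Fintype.card V : ℝ) - Γ.card - (Γ.card : ℝ) ^ (k + 1) * ((δ + ε) * Fintype.card V)
      ≤ ((Finset.univ \ Γ).card : ℝ) - ∑ v ∈ Finset.univ \ Γ, ∑ S ∈ Γ.powersetCard (k + 1),
        (1 - wt E (k + 2) ε y (insert v S)) := by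
        have h5 : ((Finset.univ \ Γ).card : ℝ) = (Fintype.card V : ℝ) - Γ.card := by
          rw [Finset.card_sdiff_of_subset (Finset.subset_univ _), Finset.card_univ,
            Nat.cast_sub (Finset.card_le_univ _)]
        rw [h5]; linarith
    _ = ∑ v ∈ Finset.univ \ Γ, (1 - ∑ S ∈ Γ.powersetCard (k + 1),
        (1 - wt E (k + 2) ε y (insert v S))) := by
        rw [Finset.sum_sub_distrib]; simp
    _ ≤ _ := Finset.sum_le_sum hkey

end Pool.Agent.Lib_helper81.FD
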